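import Pool.Agent.J4H27.MV.Frm

/-!
# The auxiliary forms
-/

set_option autoImplicit false
set_option linter.unusedSectionVars false

open MvPolynomial Pool.Agent.TH954.X Pool.Agent.TH954.V Pool.Agent.TH954.Z
  Pool.Agent.J4H27.AB

namespace Pool.Agent.J4H27.MV

lemma blk_irr {K : Type} [Field K] {n : ℕ} (A : AbV K n) : (A.toAbR.blk).Irr := by
  intro F _ _ g h a b' hg hh h1 h2
  exact A.irr F g h a b' hg hh h1 h2

lemma blk_ind {K : Type} [Field K] {n : ℕ} (A : AbV K n) : (A.toAbR.blk).Ind := by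
  intro F _ _ g a hg h0
  exact A.ind F g a hg h0

/-- A form that vanishes at a generic vector vanishes everywhere. -/
lemma gen_zero {K : Type} [Field K] {ι : Type} [Fintype ι] {n : ℕ} (C : ι → Blk K n)
    {Ω : Type} [Field Ω] [Algebra K Ω] (w : ι → Fin n → Ω)
    (hgen : ∀ (Φ : MvPolynomial (ι × Fin n) K) (τ : ι → ℕ), MH τ Φ → Gen.N C Φ → ev Φ w ≠ 0)
    {Φ : MvPolynomial (ι × Fin n) K} {τ : ι → ℕ} (hΦ : MH τ Φ) (h0 : ev Φ w = 0)
    {F : Type} [Field F] [Algebra K F] (v : ι → Fin n → F) (hv : ∀ i, Gen.Pv (C i) (v i)) :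
    ev Φ v = 0 := by
  by_contra hne
  exact hgen Φ τ hΦ ⟨F, inferInstance, inferInstance, v, hv, hne⟩ h0

theorem auxM {K : Type} [Field K] {n β : ℕ} (A : Fin β → AbV K n) (hTop : Top A) :
    ∃ C1 : ℕ, 0 < C1 ∧ ∀ (H : ℕ) (V : Type) [Fintype V] (r : ℕ)
      (ad : V → Fin r → Fin r → MvPolynomial (Fin β × Fin n) K) (η : V → Fin r → Fin β → ℕ),
      (∀ ν i k, MH (η ν k) (ad ν i k)) → (∀ ν k b, η ν k b ≤ H) →
      ∀ (L D' : ℕ) (Bad : Finset (V × (Fin L → Fin r))),
      Bad.card * (2 * (C1 * (1 + ((∑ b, (A b).dim) * D' + 2 * H * L * β)) ^ ∑ b, (A b).dim)) <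
        (D' + 1) ^ (∑ b, (A b).dim) * r ^ L →
      ∃ (T : ℕ) (Fm : (Fin L → Fin r) → MvPolynomial (Gr L β × Fin n) K),
        (∀ i, MH (Sum.elim (fun _ => T) (fun b => (A b).dim * D')) (Fm i)) ∧
        (∃ i, Gen.N (Bl A L) (Fm i)) ∧
        ∀ x ∈ Bad, ∀ (F : Type) [Field F] [Algebra K F] (Q : Fin L → Bp A F) (P : Bp A F),
          tv Fm (ad x.1) x.2 Q P = 0 := by
  classical
  set g : ℕ := ∑ b, (A b).dim with hg
  let CI : Fin β → Blk K n := fun b => (A b).toAbR.blk
  obtain ⟨Ω0, iΩ0, iKΩ0, -, w0, hw0, hgen0⟩ := Gen.generic CI (fun b => blk_irr (A b))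
    (fun b => blk_ind (A b))
  have hw0' : ∀ b : Fin β, ∃ Q : (A b).Pt Ω0, Q.1 = w0 b := fun b => hw0 b
  choose P0 hP0 using hw0'
  have hvP0 : vc (A := A) (F := Ω0) P0 = w0 := funext hP0
  have htr : Algebra.trdeg K (IntermediateField.adjoin K
      (Set.range (fun p : Fin β × Fin n => w0 p.1 p.2))) ≤ (g : Cardinal) := by
    have h1 := hTop Ω0 P0
    rw [hvP0] at h1
    exact h1
  obtain ⟨c1, hc1⟩ := Hil.hilb K Ω0 (Fin β × Fin n)
    (fun p : Fin β × Fin n => w0 p.1 p.2) g htr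
  refine ⟨c1 + 1, Nat.succ_pos _, ?_⟩
  intro H V _ r ad η had hη L D' Bad hcard
  -- the generic vector
  let CJ : Fin L × Fin β → Blk K n := fun p => (A p.2).toAbR.blk
  obtain ⟨Ω, iΩ, iKΩ, -, u, hu, hgen⟩ := Gen.generic CJ (fun p => blk_irr (A p.2))
    (fun p => blk_ind (A p.2))
  have hu1 : ∀ j, ∃ c, u j c = 1 := by
    intro j
    obtain ⟨Pj, hPj⟩ := hu j
    obtain ⟨c, hc, -⟩ := (CJ j).normed Ω Pj
    rw [hPj] at hc
    exact ⟨c, hc⟩
  obtain ⟨T, hT1, hT2⟩ := exists_growth (K := K) (u := u) hu1 (2 * H)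
  set r0 : Fin β → ℕ := fun b => (CI b).g * D' with hr0
  have hfin : ∀ σ : Fin L × Fin β → ℕ, Module.Finite K (vs K u σ) := fun σ => vs_fin u σ
  -- degrees
  let sx : V × (Fin L → Fin r) → Fin L × Fin β → ℕ := fun x p =>
    T + ∑ l, if p.1 = l then 2 * η x.1 (x.2 l) p.2 else 0
  let rx : V × (Fin L → Fin r) → Fin β → ℕ := fun x b =>
    r0 b + ∑ l, 2 * η x.1 (x.2 l) b
  have hdR : ∀ x : V × (Fin L → Fin r),
      dR (Sum.elim (fun _ => T) r0) (η x.1) x.2 = Sum.elim (sx x) (rx x) := by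
    intro x
    funext j
    rcases j with p | b
    · rfl
    · rfl
  have hsx : ∀ x p, sx x p ≤ T + 2 * H := by
    intro x p
    change T + ∑ l, (if p.1 = l then 2 * η x.1 (x.2 l) p.2 else 0) ≤ _
    rw [Finset.sum_ite_eq, if_pos (Finset.mem_univ _)]
    have := hη x.1 (x.2 p.1) p.2
    omega
  have hhj : ∀ x, Module.finrank K (vs K u (sx x)) ≤
      2 * Module.finrank K (vs K u (fun _ => T)) := fun x =>
    (Submodule.finrank_mono (vs_mono hu1 (hsx x))).trans hT1
  set E : ℕ := g * D' + 2 * H * L * β with hE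
  have hrx : ∀ x, ∑ b, rx x b ≤ E := by
    intro x
    change ∑ b, (r0 b + ∑ l, 2 * η x.1 (x.2 l) b) ≤ _
    rw [Finset.sum_add_distrib]
    refine add_le_add ?_ ?_
    · rw [hr0, ← Finset.sum_mul]
      exact le_rfl
    · calc ∑ b, ∑ l, 2 * η x.1 (x.2 l) b ≤ ∑ _b : Fin β, ∑ _l : Fin L, 2 * H :=
            Finset.sum_le_sum (fun b _ => Finset.sum_le_sum (fun l _ =>
              Nat.mul_le_mul_left _ (hη _ _ _)))
        _ = 2 * H * L * β := by
            simp only [Finset.sum_const, Finset.card_univ, Fintype.card_fin, smul_eq_mul]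
            ring
  obtain ⟨h0, hh0, ψ, hψ1, hψ2⟩ : ∃ (h0 : ℕ)
      (_ : Module.finrank K (vs K u (fun _ => T)) = h0)
      (ψ : Fin h0 → MvPolynomial ((Fin L × Fin β) × Fin n) K), (∀ k, MH (fun _ => T) (ψ k)) ∧
        LinearIndependent K (fun k => ev (ψ k) u) := by
    obtain ⟨ψ, -, h1, h2, -⟩ := exists_basis (K := K) u (fun _ => T)
    exact ⟨_, rfl, ψ, h1, h2⟩
  rw [hh0] at hT1 hT2 hhj
  choose φ ρ hφ1 hφ2 hφ3 using fun x : V × (Fin L → Fin r) => exists_basis (K := K) u (sx x)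
  -- the unknowns
  let Box := (b : Fin β) → Fin (CI b).g → Fin (D' + 1)
  let Hb : Fin h0 × Box → MvPolynomial (Gr L β × Fin n) K := fun y =>
    Dns.pull (Sum.inl : (Fin L × Fin β) → Gr L β) (ψ y.1) *
      Dns.pull (Sum.inr : Fin β → Gr L β) (mb K CI D' y.2)
  have hHb : ∀ y, MH (Sum.elim (fun _ => T) r0) (Hb y) := fun y =>
    MH_base (hψ1 y.1) (MH_mb CI D' y.2)
  -- columns
  have hcs : ∀ b, ∃ c, ((0 : Bp A K) b).1 c ≠ 0 := by
    intro b
    obtain ⟨c, hc, -⟩ := ((0 : Bp A K) b).2.1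
    exact ⟨c, by rw [hc]; exact one_ne_zero⟩
  choose cs hcs using hcs
  let Pr : (x : V × (Fin L → Fin r)) → (Fin L → Fin r) → MvPolynomial (Gr L β × Fin n) K :=
    fun x i => ∏ l, cmp (ad x.1 (i l) (x.2 l)) (Ca A l cs)
  have hPr : ∀ x i (Ψ : MvPolynomial (Gr L β × Fin n) K), MH (Sum.elim (fun _ => T) r0) Ψ →
      MH (Sum.elim (sx x) (rx x)) (Ψ * Pr x i) := by
    intro x i Ψ hΨ
    rw [← hdR x]
    unfold dR
    exact MH_mul hΨ (MH_prod Finset.univ (fun l => dC l (η x.1 (x.2 l))) _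
      (fun l _ => MH_cmpCa A l cs (had x.1 (i l) (x.2 l))))
  let W : Submodule K Ω0 :=
    Submodule.map (aeval (R := K) (fun p : Fin β × Fin n => w0 p.1 p.2)).toLinearMap
      (restrictTotalDegree (Fin β × Fin n) K E)
  have hmem : ∀ (x : V × (Fin L → Fin r)) (ρ' : Ω →ₗ[K] K)
      (G : MvPolynomial (Gr L β × Fin n) K), MH (Sum.elim (sx x) (rx x)) G →
      lr u ρ' w0 G ∈ W := by
    intro x ρ' G hG
    rw [lr_apply]
    refine ⟨gam u ρ' G, ?_, rfl⟩
    rw [SetLike.mem_coe, mem_restrictTotalDegree]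
    exact (totalDegree_le_of_MH (MH_gam u ρ' hG)).trans (hrx x)
  let Ix := (x : {x // x ∈ Bad}) × Fin (Module.finrank K (vs K u (sx x.1)))
  let Un := (Fin L → Fin r) × (Fin h0 × Box)
  let μ : Un → (Ix → W) := fun z x =>
    ⟨lr u (ρ x.1.1 x.2) w0 (Hb z.2 * Pr x.1.1 z.1), hmem x.1.1 _ _ (hPr _ _ _ (hHb z.2))⟩
  have hcardBox : Fintype.card Box = (D' + 1) ^ g := by
    have h1 : Fintype.card Box = ∏ b : Fin β, (D' + 1) ^ (A b).dim := by
      rw [Fintype.card_pi]
      refine Finset.prod_congr rfl (fun b _ => ?_)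
      rw [Fintype.card_fun, Fintype.card_fin, Fintype.card_fin]
      rfl
    rw [h1, Finset.prod_pow_eq_pow_sum]
  have hWfin : Module.Finite K W := by
    haveI : Module.Finite K (restrictTotalDegree (Fin β × Fin n) K E) :=
      inferInstance
    exact Module.Finite.map _ _
  have hW : Module.finrank K W ≤ c1 * (1 + E) ^ g := by
    have h6 := hc1 E
    rw [add_comm E 1] at h6
    exact h6
  have hdep : ¬ LinearIndependent K μ := by
    intro hli
    have h1 := hli.fintype_card_le_finrank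
    have h3 : Module.finrank K (Ix → W) = Fintype.card Ix * Module.finrank K W := by
      rw [Module.finrank_pi_fintype K, Finset.sum_const, Finset.card_univ, smul_eq_mul]
    have h4 : Fintype.card Ix ≤ Bad.card * (2 * h0) := by
      rw [Fintype.card_sigma]
      simp only [Fintype.card_fin]
      calc ∑ x : {x // x ∈ Bad}, Module.finrank K (vs K u (sx x.1)) ≤
            ∑ _x : {x // x ∈ Bad}, 2 * h0 := Finset.sum_le_sum (fun x _ => hhj x.1)
        _ = Bad.card * (2 * h0) := by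
            rw [Finset.sum_const, Finset.card_univ, Fintype.card_coe, smul_eq_mul]
    have h5 : Fintype.card Un = r ^ L * (h0 * (D' + 1) ^ g) := by
      rw [Fintype.card_prod, Fintype.card_prod, Fintype.card_fin, hcardBox, Fintype.card_fun,
        Fintype.card_fin, Fintype.card_fin]
    rw [h3, h5] at h1
    have h6 : Fintype.card Ix * Module.finrank K W ≤
        (Bad.card * (2 * h0)) * (c1 * (1 + E) ^ g) := Nat.mul_le_mul h4 hW
    have h7 := h1.trans h6
    have h8 : (Bad.card * (2 * h0)) * (c1 * (1 + E) ^ g) < r ^ L * (h0 * (D' + 1) ^ g) := by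
      calc (Bad.card * (2 * h0)) * (c1 * (1 + E) ^ g)
          ≤ (Bad.card * (2 * h0)) * ((c1 + 1) * (1 + E) ^ g) :=
            Nat.mul_le_mul_left _ (Nat.mul_le_mul_right _ (Nat.le_succ _))
        _ = h0 * (Bad.card * (2 * ((c1 + 1) * (1 + E) ^ g))) := by ring
        _ < h0 * ((D' + 1) ^ g * r ^ L) := Nat.mul_lt_mul_of_pos_left hcard hT2
        _ = r ^ L * (h0 * (D' + 1) ^ g) := by ring
    exact absurd h7 (not_le.2 h8)
  rw [Fintype.not_linearIndependent_iff] at hdep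
  obtain ⟨z, hz1, x0, hz2⟩ := hdep
  let Fm : (Fin L → Fin r) → MvPolynomial (Gr L β × Fin n) K := fun i =>
    ∑ y, z (i, y) • Hb y
  have hFm : ∀ i, MH (Sum.elim (fun _ => T) r0) (Fm i) := by
    intro i
    rw [← mem_mh]
    exact Submodule.sum_mem _ (fun y _ => Submodule.smul_mem _ _ (mem_mh.2 (hHb y)))
  refine ⟨T, Fm, hFm, ⟨x0.1, ?_⟩, ?_⟩
  · -- nonvanishing
    let x : Box → Ω := fun e => ∑ a, z (x0.1, (a, e)) • ev (ψ a) u
    have hx : x x0.2.2 ≠ 0 := by
      intro h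
      have h1 := Fintype.linearIndependent_iff.1 hψ2 (fun a => z (x0.1, (a, x0.2.2))) h x0.2.1
      exact hz2 h1
    obtain ⟨F', iF, iA, f, v, hv, hne⟩ := nonvan CI (fun b => blk_ind (A b)) D' x x0.2.2 hx
    refine ⟨F', iF, iA, Sum.elim (fun p c => f (u p c)) v, ?_, ?_⟩
    · rintro (p | b)
      · exact (hu p).map f
      · exact hv b
    · have h1 : ev (Fm x0.1) (Sum.elim (fun p c => f (u p c)) v) =
          ∑ e, f (x e) * ev (mb K CI D' e) v := by
        have h2 : ev (Fm x0.1) (Sum.elim (fun p c => f (u p c)) v) =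
            ∑ y : Fin h0 × Box, z (x0.1, y) • ev (Hb y) (Sum.elim (fun p c => f (u p c)) v) := by
          simp only [Fm, ev, map_sum, map_smul]
        have h3 : ∀ y : Fin h0 × Box, ev (Hb y) (Sum.elim (fun p c => f (u p c)) v) =
            f (ev (ψ y.1) u) * ev (mb K CI D' y.2) v := by
          intro y
          have h4 : ev (Hb y) (Sum.elim (fun p c => f (u p c)) v) =
              ev (Dns.pull (Sum.inl : (Fin L × Fin β) → Gr L β) (ψ y.1))
                (Sum.elim (fun p c => f (u p c)) v) *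
              ev (Dns.pull (Sum.inr : Fin β → Gr L β) (mb K CI D' y.2))
                (Sum.elim (fun p c => f (u p c)) v) := by
            simp only [Hb, ev, map_mul]
          rw [h4, Dns.ev_pull, Dns.ev_pull]
          congr 1
          exact (MvPolynomial.comp_aeval_apply
            (f := fun p : (Fin L × Fin β) × Fin n => u p.1 p.2) f (ψ y.1)).symm
        rw [h2, Fintype.sum_prod_type_right]
        refine Finset.sum_congr rfl (fun e _ => ?_)
        simp only [h3, x, map_sum, map_smul, Finset.sum_mul]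
        refine Finset.sum_congr rfl (fun a _ => ?_)
        rw [smul_mul_assoc]
      rw [h1]
      exact hne
  · intro x hx F _ _ Q P
    refine transfer A hFm (had x.1) cs hcs ?_ Q P
    intro F' _ _ Q' P'
    have hR := MH_Rc A (I := x.2) (c0 := fun _ => cs) hFm (had x.1)
    rw [hdR x] at hR
    have h1 := expand CJ u hgen hR (φ x) (hφ1 x) (ρ x) (hφ3 x) (vcT Q')
      (fun p => ⟨Q' p.1 p.2, rfl⟩) (vc P')
    refine h1.trans (Finset.sum_eq_zero (fun k _ => ?_))
    have h2 : ev (gam u (ρ x k) (Rc A Fm (ad x.1) x.2 (fun _ => cs))) w0 = 0 := by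
      rw [← lr_apply]
      have h3 := congrFun hz1 (⟨⟨x, hx⟩, k⟩ : Ix)
      have h4 : ((∑ y, z y • μ y) (⟨⟨x, hx⟩, k⟩ : Ix) : W).val =
          ∑ y : Un, z y • lr u (ρ x k) w0 (Hb y.2 * Pr x y.1) := by
        rw [Finset.sum_apply, Submodule.coe_sum]
        rfl
      rw [h3] at h4
      have h5 : Rc A Fm (ad x.1) x.2 (fun _ => cs) = ∑ y : Un, z y • (Hb y.2 * Pr x y.1) := by
        unfold Rc
        rw [Fintype.sum_prod_type]
        refine Finset.sum_congr rfl (fun i _ => ?_)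
        change (∑ y, z (i, y) • Hb y) * _ = _
        rw [Finset.sum_mul]
        refine Finset.sum_congr rfl (fun y _ => ?_)
        rw [smul_mul_assoc]
      rw [h5, map_sum]
      simp only [map_smul]
      rw [← h4]
      rfl
    rw [gen_zero CI w0 hgen0 (MH_gam u _ hR) h2 (vc P') (fun b => ⟨P' b, rfl⟩), mul_zero]

end Pool.Agent.J4H27.MV
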