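import Pool.Agent.J4H27.MV.Loc

/-!
# Sums over places for the auxiliary value
-/

set_option autoImplicit false
set_option linter.unusedSectionVars false

open MvPolynomial Pool.Agent.TH954.X Pool.Agent.TH954.V Pool.Agent.TH954.Z
  Pool.Agent.TH954.Y Pool.Agent.J4H27.AB NumberField Height

namespace Pool.Agent.J4H27.MV

section sums

variable {K : Type} [Field K]

lemma sum_kap {I : Type} (s : Finset I) (x : I → K) (B : ℝ) (hB : 0 ≤ B)
    (w : AbsoluteValue K ℝ) (h : ∀ i ∈ s, w (x i) ≤ B) :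
    w (∑ i ∈ s, x i) ≤ kap (∅ : Finset K) (s.card + 1) 1 w * B := by
  classical
  have hc : 1 ≤ cM (∅ : Finset K) w := one_le_cM _ w
  unfold kap
  by_cases hu : Ult w
  · rw [if_pos hu, one_mul, pow_one]
    have h1 : w (∑ i ∈ s, x i) ≤ B := by
      induction s using Finset.induction_on with
      | empty => simpa using hB
      | insert a s ha ih =>
        rw [Finset.sum_insert ha]
        refine (hu _ _).trans (max_le (h a (Finset.mem_insert_self _ _)) ?_)
        exact ih (fun i hi => h i (Finset.mem_insert_of_mem hi))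
    nlinarith
  · rw [if_neg hu, pow_one]
    refine (IsAbsoluteValue.abv_sum w _ _).trans ((Finset.sum_le_sum h).trans ?_)
    rw [Finset.sum_const, nsmul_eq_mul]
    push_cast
    have h2 : (0 : ℝ) ≤ s.card := Nat.cast_nonneg _
    have h3 : (s.card : ℝ) ≤ (s.card + 1) * cM (∅ : Finset K) w := by nlinarith
    exact mul_le_mul_of_nonneg_right h3 hB

variable [NumberField K]

/-- the sum over the places in `S` -/
noncomputable def sS (S1 : Finset (InfinitePlace K)) (S2 : Finset (FinitePlace K))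
    (g : AbsoluteValue K ℝ → ℝ) : ℝ :=
  ∑ w ∈ S1, (w.mult : ℝ) * g (ai w) + ∑ v ∈ S2, g (av v)

/-- the absolute values of the places in `S` -/
def InS (S1 : Finset (InfinitePlace K)) (S2 : Finset (FinitePlace K))
    (w : AbsoluteValue K ℝ) : Prop := (∃ v ∈ S1, w = ai v) ∨ ∃ v ∈ S2, w = av v

variable {S1 : Finset (InfinitePlace K)} {S2 : Finset (FinitePlace K)}

lemma sS_le_tot {g : AbsoluteValue K ℝ → ℝ} (hg : FS g) (h0 : ∀ w, 0 ≤ g w) :
    sS S1 S2 g ≤ tot g := by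
  classical
  unfold sS tot
  refine add_le_add ?_ ?_
  · exact Finset.sum_le_sum_of_subset_of_nonneg (Finset.subset_univ _)
      (fun w _ _ => mul_nonneg (Nat.cast_nonneg _) (h0 _))
  · rw [finsum_eq (hg.toFinset ∪ S2) (fun v hv => Finset.mem_union_left _
      ((Set.Finite.mem_toFinset hg).mpr hv))]
    exact Finset.sum_le_sum_of_subset_of_nonneg Finset.subset_union_right
      (fun v _ _ => h0 _)

lemma sS_mono {g h : AbsoluteValue K ℝ → ℝ} (hgh : ∀ w, InS S1 S2 w → g w ≤ h w) :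
    sS S1 S2 g ≤ sS S1 S2 h := by
  unfold sS
  refine add_le_add (Finset.sum_le_sum (fun w hw => ?_)) (Finset.sum_le_sum (fun v hv => ?_))
  · exact mul_le_mul_of_nonneg_left (hgh _ (Or.inl ⟨w, hw, rfl⟩)) (Nat.cast_nonneg _)
  · exact hgh _ (Or.inr ⟨v, hv, rfl⟩)

lemma sS_add (g h : AbsoluteValue K ℝ → ℝ) :
    sS S1 S2 (fun w => g w + h w) = sS S1 S2 g + sS S1 S2 h := by
  unfold sS
  simp_rw [mul_add]
  rw [Finset.sum_add_distrib, Finset.sum_add_distrib]
  ring

lemma sS_mul (c : ℝ) (g : AbsoluteValue K ℝ → ℝ) :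
    sS S1 S2 (fun w => c * g w) = c * sS S1 S2 g := by
  unfold sS
  rw [mul_add, Finset.mul_sum, Finset.mul_sum]
  congr 1
  exact Finset.sum_congr rfl (fun w _ => by ring)

lemma sS_const (c : ℝ) : sS S1 S2 (fun _ => c) = c * sS S1 S2 (fun _ => 1) := by
  rw [← sS_mul]
  simp

lemma sS_nonneg {g : AbsoluteValue K ℝ → ℝ} (h0 : ∀ w, 0 ≤ g w) : 0 ≤ sS S1 S2 g :=
  add_nonneg (Finset.sum_nonneg (fun _ _ => mul_nonneg (Nat.cast_nonneg _) (h0 _)))
    (Finset.sum_nonneg (fun _ _ => h0 _))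

/-- one term of the sum -/
lemma le_sS {g : AbsoluteValue K ℝ → ℝ} (h0 : ∀ w, 0 ≤ g w) {w : AbsoluteValue K ℝ}
    (hw : InS S1 S2 w) : g w ≤ sS S1 S2 g := by
  classical
  unfold sS
  have h1 : 0 ≤ ∑ w ∈ S1, (w.mult : ℝ) * g (ai w) :=
    Finset.sum_nonneg (fun w _ => mul_nonneg (Nat.cast_nonneg _) (h0 _))
  have h2 : 0 ≤ ∑ v ∈ S2, g (av v) := Finset.sum_nonneg (fun v _ => h0 _)
  rcases hw with ⟨v, hv, rfl⟩ | ⟨v, hv, rfl⟩
  · have h3 : (v.mult : ℝ) * g (ai v) ≤ ∑ w ∈ S1, (w.mult : ℝ) * g (ai w) :=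
      Finset.single_le_sum (f := fun w : InfinitePlace K => (w.mult : ℝ) * g (ai w))
        (fun w _ => mul_nonneg (Nat.cast_nonneg _) (h0 _)) hv
    have h4 : (1 : ℝ) ≤ v.mult := by exact_mod_cast InfinitePlace.mult_pos
    have h5 : g (ai v) ≤ (v.mult : ℝ) * g (ai v) := by nlinarith [h0 (ai v)]
    linarith
  · have h3 : g (av v) ≤ ∑ v ∈ S2, g (av v) :=
      Finset.single_le_sum (f := fun v : FinitePlace K => g (av v)) (fun v _ => h0 _) hv
    linarith

end sums

section glo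

variable {K : Type} [Field K] [NumberField K] {n β r : ℕ} {A : Fin β → AbV K n}

/-- upper bound for the sum over the places in `S` of minus the logarithm of the normalised value -/
lemma glo (A : Fin β → AbV K n) {L : ℕ}
    (Fm : (Fin L → Fin r) → MvPolynomial (Gr L β × Fin n) K) (σ : Gr L β → ℕ)
    (hF : ∀ i, MH σ (Fm i)) (S1 : Finset (InfinitePlace K)) (S2 : Finset (FinitePlace K)) :
    ∃ C : ℝ, 0 ≤ C ∧ ∀ (Q : Fin L → Bp A K) (P : Bp A K) (t : Fin L → Fin r → K)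
      (x : AbsoluteValue K ℝ → ℝ), (∀ l, t l ≠ 0) →
      (∑ i, ev (Fm i) (vcS Q P) * ∏ l, t l (i l) ≠ 0) →
      (∀ w, InS S1 S2 w → Real.log (w (∑ i, ev (Fm i) (vcS Q P) * ∏ l, t l (i l))) + x w ≤
        ∑ j, (σ j : ℝ) * Real.log (⨆ c, w (vcS Q P j c)) + ∑ l, Real.log (⨆ c, w (t l c))) →
      sS S1 S2 x ≤ C + ∑ j, (σ j : ℝ) * logHeight (vcS Q P j) + ∑ l, logHeight (t l) := by
  classical
  choose A1 M1 hM1 hA1 using fun i => nvW_le_kap (Fm i) σ (hF i)
  set κ0 : AbsoluteValue K ℝ → ℝ := fun w =>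
    kap (∅ : Finset K) ((Finset.univ : Finset (Fin L → Fin r)).card + 1) 1 w with hκ0
  have h10 : ∀ w : AbsoluteValue K ℝ, 1 ≤ κ0 w := fun w => one_le_kap _ (Nat.succ_pos _) _ _
  have hki : ∀ (i : Fin L → Fin r) (w : AbsoluteValue K ℝ), 1 ≤ kap (A1 i) (M1 i) 1 w :=
    fun i w => one_le_kap _ (hM1 i) _ _
  set lk : AbsoluteValue K ℝ → ℝ := fun w =>
    Real.log (κ0 w) + ∑ i, Real.log (kap (A1 i) (M1 i) 1 w) with hlk
  have hFS : FS lk := FS_add (FS_kap _ (Nat.succ_pos _)) (FS_sum _ (fun i _ => FS_kap _ (hM1 i)))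
  have hlk0 : ∀ w : AbsoluteValue K ℝ, 0 ≤ lk w := fun w => add_nonneg (Real.log_nonneg (h10 w))
    (Finset.sum_nonneg (fun i _ => Real.log_nonneg (hki i w)))
  refine ⟨tot lk, tot_nonneg hFS hlk0, fun Q P t x ht hne hx => ?_⟩
  set y := ∑ i, ev (Fm i) (vcS Q P) * ∏ l, t l (i l) with hy
  have hu : ∀ j, vcS Q P j ≠ 0 := fun j => vcS_ne A Q P j
  -- the upper bound at all places
  have hup : ∀ w : AbsoluteValue K ℝ, Real.log (w y) ≤ lk w +
      (∑ j, (σ j : ℝ) * Real.log (⨆ c, w (vcS Q P j c)) + ∑ l, Real.log (⨆ c, w (t l c))) := by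
    intro w
    set N1 : ℝ := ∏ j, (⨆ c, w (vcS Q P j c)) ^ σ j with hN1
    have hN10 : 0 < N1 := Finset.prod_pos (fun j _ => pow_pos (sup_posW w (hu j)) _)
    set N4 : ℝ := ∏ l, ⨆ c, w (t l c) with hN4
    have hN40 : 0 < N4 := Finset.prod_pos (fun l _ => sup_posR w (ht l))
    set k1 : ℝ := ∏ i, kap (A1 i) (M1 i) 1 w with hk1
    have hk10 : 0 < k1 := Finset.prod_pos (fun i _ => zero_lt_one.trans_le (hki i w))
    have h1 : ∀ i : Fin L → Fin r, w (ev (Fm i) (vcS Q P) * ∏ l, t l (i l)) ≤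
        k1 * (N1 * N4) := by
      intro i
      rw [map_mul, map_prod]
      have h2 : w (ev (Fm i) (vcS Q P)) ≤ kap (A1 i) (M1 i) 1 w * N1 :=
        le_of_nvW hu (hA1 i w _ hu)
      have h3 : ∏ l, w (t l (i l)) ≤ N4 :=
        Finset.prod_le_prod (fun l _ => apply_nonneg w _) (fun l _ =>
          le_ciSup (f := fun c => w (t l c)) (Set.finite_range _).bddAbove (i l))
      have h4 : kap (A1 i) (M1 i) 1 w ≤ k1 := by
        have h5 : ∏ p ∈ {i}, kap (A1 p) (M1 p) 1 w ≤ ∏ p, kap (A1 p) (M1 p) 1 w :=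
          Finset.prod_le_prod_of_subset_of_one_le (Finset.subset_univ _)
            (fun p _ => (zero_lt_one.trans_le (hki p w)).le) (fun p _ _ => hki p w)
        rwa [Finset.prod_singleton] at h5
      calc w (ev (Fm i) (vcS Q P)) * ∏ l, w (t l (i l)) ≤ (kap (A1 i) (M1 i) 1 w * N1) * N4 :=
            mul_le_mul h2 h3 (Finset.prod_nonneg (fun l _ => apply_nonneg w _))
              (mul_nonneg (zero_le_one.trans (hki i w)) hN10.le)
        _ ≤ (k1 * N1) * N4 := by gcongr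
        _ = _ := by ring
    have h2 := sum_kap Finset.univ (fun i => ev (Fm i) (vcS Q P) * ∏ l, t l (i l))
      (k1 * (N1 * N4)) (by positivity) w (fun i _ => h1 i)
    have h3 := Real.log_le_log (w.pos hne) h2
    have hκp : 0 < κ0 w := zero_lt_one.trans_le (h10 w)
    rw [Real.log_mul hκp.ne' (by positivity), Real.log_mul hk10.ne' (by positivity),
      Real.log_mul hN10.ne' hN40.ne'] at h3
    have e1 : Real.log N1 = ∑ j, (σ j : ℝ) * Real.log (⨆ c, w (vcS Q P j c)) := by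
      rw [hN1, Real.log_prod (fun j _ => (pow_pos (sup_posW w (hu j)) _).ne')]
      simp_rw [Real.log_pow]
    have e4 : Real.log N4 = ∑ l, Real.log (⨆ c, w (t l c)) := by
      rw [hN4, Real.log_prod (fun l _ => (sup_posR w (ht l)).ne')]
    have e5 : Real.log k1 = ∑ i, Real.log (kap (A1 i) (M1 i) 1 w) := by
      rw [hk1, Real.log_prod (fun i _ => (zero_lt_one.trans_le (hki i w)).ne')]
    have e6 : lk w = Real.log (κ0 w) + Real.log k1 := by rw [e5]
    rw [← e1, ← e4, e6]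
    linarith
  -- the function G
  set G : AbsoluteValue K ℝ → ℝ := fun w => lk w + ((-1 : ℝ) * Real.log (w y) +
    (∑ j, (σ j : ℝ) * Real.log (⨆ c, w (vcS Q P j c)) + ∑ l, Real.log (⨆ c, w (t l c)))) with hG
  have hFj : ∀ j, FS (fun w : AbsoluteValue K ℝ =>
      (σ j : ℝ) * Real.log (⨆ c, w (vcS Q P j c))) := fun j => FS_mul (FS_sup' (hu j)) _
  have hFl : ∀ l, FS (fun w : AbsoluteValue K ℝ => Real.log (⨆ c, w (t l c))) :=
    fun l => FS_sup' (ht l)
  have hF1 := FS_sum Finset.univ (fun j _ => hFj j)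
  have hF2 := FS_sum Finset.univ (fun l _ => hFl l)
  have hF3 := FS_mul (FS_log hne) (-1)
  have hGF : FS G := FS_add hFS (FS_add hF3 (FS_add hF1 hF2))
  have hG0 : ∀ w, 0 ≤ G w := by
    intro w
    have := hup w
    rw [hG]
    simp only
    linarith
  have hxG : sS S1 S2 x ≤ sS S1 S2 G := by
    refine sS_mono (fun w hw => ?_)
    have h1 := hx w hw
    have h2 := hlk0 w
    rw [hG]
    simp only
    linarith
  refine (hxG.trans (sS_le_tot hGF hG0)).trans (le_of_eq ?_)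
  rw [hG, tot_add hFS (FS_add hF3 (FS_add hF1 hF2)), tot_add hF3 (FS_add hF1 hF2),
    tot_add hF1 hF2, tot_mul (FS_log hne), tot_log hne, tot_sum _ (fun j _ => hFj j),
    tot_sum _ (fun l _ => hFl l)]
  have h1 : ∀ j, tot (fun w : AbsoluteValue K ℝ =>
      (σ j : ℝ) * Real.log (⨆ c, w (vcS Q P j c))) = (σ j : ℝ) * logHeight (vcS Q P j) := by
    intro j
    rw [tot_mul (FS_sup' (hu j)), tot_sup' (hu j)]
  have h2 : ∀ l, tot (fun w : AbsoluteValue K ℝ => Real.log (⨆ c, w (t l c))) =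
      logHeight (t l) := fun l => tot_sup' (ht l)
  simp_rw [h1, h2]
  ring

end glo

end Pool.Agent.J4H27.MV
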