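import Pool.Agent.J4H27.MV.Frm

/-!
# Choice of pairs `(P, t)` in general position
-/

set_option autoImplicit false
set_option linter.unusedSectionVars false

open MvPolynomial Pool.Agent.TH954.X Pool.Agent.TH954.V Pool.Agent.TH954.Z
  Pool.Agent.J4H27.AB

namespace Pool.Agent.J4H27.MV

section slot

variable {K : Type} [Field K] {n β : ℕ}

/-- no moving hyperplane of multidegree `τ` contains `E` -/
def GnrM (A : Fin β → AbV K n) {r : ℕ} (E : Set (Bp A K × (Fin r → K))) (τ : Fin β → ℕ) : Prop :=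
  ∀ Φ : Fin r → MvPolynomial (Fin β × Fin n) K, (∀ c, MH τ (Φ c)) →
    (∀ x ∈ E, ∑ c, x.2 c * ev (Φ c) (vc x.1) = 0) → ∀ c, ¬ NZ A (Φ c)

lemma slotM {A : Fin β → AbV K n} {r : ℕ} {E : Set (Bp A K × (Fin r → K))} {L : ℕ}
    {Ψ : (Fin L → Fin r) → MvPolynomial ((Fin L × Fin β) × Fin n) K} {σ : Fin L × Fin β → ℕ}
    (hΨ : ∀ i, MH σ (Ψ i))
    {F : Type} [Field F] [Algebra K F] (Q : Fin L → Bp A F) (s : Fin L → Fin r → F) (a : Fin L)
    (hE : GnrM A E (fun c => σ (a, c)))
    (hQ : ∑ i, ev (Ψ i) (vcT Q) * ∏ l, s l (i l) ≠ 0) :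
    ∃ x ∈ E, ∑ i, ev (Ψ i) (vcT (Function.update Q a (Dns.bc F x.1))) *
      ∏ l, (Function.update s a (fun c => algebraMap K F (x.2 c))) l (i l) ≠ 0 := by
  classical
  by_contra hcon
  push Not at hcon
  let b := Module.Basis.ofVectorSpace K F
  let R : (Fin L → Fin r) → (((Fin L × Fin β) × Fin n) →₀ ℕ) → F := fun i M =>
    (algebraMap K F (coeff M (Ψ i)) * ∏ l ∈ Finset.univ.erase a, Dns.mon M l (vc (Q l))) *
      ∏ l ∈ Finset.univ.erase a, s l (i l)
  have hval : ∀ (Y : Bp A F) (y : Fin r → F),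
      ∑ i, ev (Ψ i) (vcT (Function.update Q a Y)) * ∏ l, (Function.update s a y) l (i l) =
      ∑ i, ∑ M ∈ (Ψ i).support, R i M * (y (i a) * Dns.mon M a (vc Y)) := by
    intro Y y
    refine Finset.sum_congr rfl (fun i _ => ?_)
    have h3 : ∏ l, (Function.update s a y) l (i l) =
        y (i a) * ∏ l ∈ Finset.univ.erase a, s l (i l) := by
      rw [← Finset.mul_prod_erase Finset.univ _ (Finset.mem_univ a), Function.update_self]
      congr 1
      refine Finset.prod_congr rfl (fun l hl => ?_)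
      rw [Function.update_of_ne (Finset.ne_of_mem_erase hl)]
    rw [Dns.ev_blocks, h3, Finset.sum_mul]
    refine Finset.sum_congr rfl fun M _ => ?_
    have h1 : (fun b => vcT (Function.update Q a Y) (a, b)) = vc Y := by
      funext b
      simp [vcT, vc]
    have h2 : ∏ l ∈ Finset.univ.erase a,
        Dns.mon M l (fun b => vcT (Function.update Q a Y) (l, b)) =
        ∏ l ∈ Finset.univ.erase a, Dns.mon M l (vc (Q l)) := by
      refine Finset.prod_congr rfl fun l hl => ?_
      have hla : l ≠ a := (Finset.mem_erase.1 hl).1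
      congr 1
      funext b
      simp [vcT, vc, hla]
    rw [← Finset.mul_prod_erase Finset.univ _ (Finset.mem_univ a), h1, h2]
    simp only [R]
    ring
  have hfib : ∀ (f : (Fin L → Fin r) → F), ∑ i, f i =
      ∑ c, ∑ i with i a = c, f i := fun f =>
    (Finset.sum_fiberwise Finset.univ (fun i : Fin L → Fin r => i a) f).symm
  let G := fun (c : Fin r) α => ∑ i : Fin L → Fin r with i a = c,
    ∑ M ∈ (Ψ i).support, monomial (Dns.ea a M) (b.repr (R i M) α)
  have hGMH : ∀ c α, MH (fun c => σ (a, c)) (G c α) := by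
    intro c α
    refine MH_sum _ _ _ fun i _ => MH_sum _ _ _ fun M hM => ?_
    intro m hm j
    have hm2 := Finset.mem_of_subset support_monomial_subset hm
    rw [Finset.mem_singleton] at hm2
    rw [hm2]
    exact hΨ i M hM (a, j)
  have hGev : ∀ c α (F' : Type) [Field F'] [Algebra K F'] (u : Fin β → Fin n → F'),
      ev (G c α) u = ∑ i : Fin L → Fin r with i a = c, ∑ M ∈ (Ψ i).support,
        algebraMap K F' (b.repr (R i M) α) * Dns.mon M a u := by
    intro c α F' _ _ u
    have h1 : ev (G c α) u = ∑ i : Fin L → Fin r with i a = c, ∑ M ∈ (Ψ i).support,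
        ev (monomial (Dns.ea a M) (b.repr (R i M) α)) u := by
      simp only [G, ev, map_sum]
    rw [h1]
    exact Finset.sum_congr rfl fun i _ => Finset.sum_congr rfl fun M _ => Dns.ev_mono a M _ u
  have hG0 : ∀ c α, ev (G c α) (vc (Q a)) = 0 := by
    intro c α
    by_contra hne
    refine hE (fun c => G c α) (fun c => hGMH c α) (fun x hx => ?_) c
      ⟨F, inferInstance, inferInstance, Q a, hne⟩
    have h1 := hcon x hx
    rw [hval] at h1
    have h2 : ∑ i : Fin L → Fin r, ∑ M ∈ (Ψ i).support,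
        (x.2 (i a) * Dns.mon M a (vc x.1)) • R i M = 0 := by
      rw [← h1]
      refine Finset.sum_congr rfl fun i _ => Finset.sum_congr rfl fun M _ => ?_
      rw [Dns.mon_bc, Algebra.smul_def, map_mul, mul_comm]
    have h3 := congrArg (fun y => b.repr y α) h2
    simp only [map_sum, map_smul, map_zero, Finsupp.coe_zero, Pi.zero_apply,
      Finsupp.finsetSum_apply, Finsupp.smul_apply, smul_eq_mul] at h3
    rw [← h3, ← Finset.sum_fiberwise Finset.univ (fun i : Fin L → Fin r => i a)]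
    refine Finset.sum_congr rfl fun c' _ => ?_
    rw [hGev, Finset.mul_sum]
    refine Finset.sum_congr rfl fun i hi => ?_
    rw [Finset.mul_sum]
    refine Finset.sum_congr rfl fun M _ => ?_
    rw [Algebra.algebraMap_self_apply, (Finset.mem_filter.1 hi).2]
    ring
  apply hQ
  have h0 := hval (Q a) (s a)
  rw [Function.update_eq_self, Function.update_eq_self] at h0
  rw [h0, hfib]
  refine Finset.sum_eq_zero fun c _ => ?_
  -- expansion in the basis
  set W : Finset _ := (Finset.univ : Finset (Fin L → Fin r)).biUnion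
    (fun i => (Ψ i).support.biUnion (fun M => (b.repr (R i M)).support)) with hW
  have hr : ∀ i, ∀ M ∈ (Ψ i).support, R i M = ∑ α ∈ W,
      algebraMap K F (b.repr (R i M) α) * b α := by
    intro i M hM
    have h1 := b.linearCombination_repr (R i M)
    rw [Finsupp.linearCombination_apply] at h1
    have hsub : (b.repr (R i M)).support ⊆ W := by
      refine (Finset.subset_biUnion_of_mem (fun M => (b.repr (R i M)).support) hM).trans ?_
      exact Finset.subset_biUnion_of_mem
        (fun i => (Ψ i).support.biUnion (fun M => (b.repr (R i M)).support)) (Finset.mem_univ i)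
    have h2 := Finsupp.sum_of_support_subset (b.repr (R i M)) (s := W) hsub
      (fun i z => z • b i) (fun _ _ => zero_smul _ _)
    exact (h1.symm.trans h2).trans (Finset.sum_congr rfl fun α _ => Algebra.smul_def _ _)
  have h5 : ∑ i : Fin L → Fin r with i a = c, ∑ M ∈ (Ψ i).support,
      R i M * (s a (i a) * Dns.mon M a (vc (Q a))) =
      s a c * ∑ α ∈ W, b α * ev (G c α) (vc (Q a)) := by
    have h6 : ∑ α ∈ W, b α * ev (G c α) (vc (Q a)) =
        ∑ i : Fin L → Fin r with i a = c, ∑ M ∈ (Ψ i).support,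
          R i M * Dns.mon M a (vc (Q a)) := by
      have h7 : ∀ i, ∀ M ∈ (Ψ i).support, R i M * Dns.mon M a (vc (Q a)) =
          ∑ α ∈ W, b α * (algebraMap K F (b.repr (R i M) α) * Dns.mon M a (vc (Q a))) := by
        intro i M hM
        conv_lhs => rw [hr i M hM]
        rw [Finset.sum_mul]
        refine Finset.sum_congr rfl fun α _ => ?_
        ring
      rw [Finset.sum_congr rfl (fun i _ => Finset.sum_congr rfl (h7 i))]
      simp_rw [hGev, Finset.mul_sum]
      rw [Finset.sum_comm]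
      refine Finset.sum_congr rfl fun i _ => ?_
      rw [Finset.sum_comm]
    rw [h6, Finset.mul_sum]
    refine Finset.sum_congr rfl fun i hi => ?_
    rw [Finset.mul_sum]
    refine Finset.sum_congr rfl fun M _ => ?_
    rw [(Finset.mem_filter.1 hi).2]
    ring
  rw [h5]
  have h6 : ∑ α ∈ W, b α * ev (G c α) (vc (Q a)) = 0 :=
    Finset.sum_eq_zero fun α _ => by rw [hG0, mul_zero]
  rw [h6, mul_zero]

/-- tuples of elements of `E` -/
lemma densM {A : Fin β → AbV K n} {r : ℕ} {E : Set (Bp A K × (Fin r → K))} {L : ℕ}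
    {Ψ : (Fin L → Fin r) → MvPolynomial ((Fin L × Fin β) × Fin n) K} {σ : Fin L × Fin β → ℕ}
    (hΨ : ∀ i, MH σ (Ψ i))
    (hE : ∀ a, GnrM A E (fun c => σ (a, c)))
    {F : Type} [Field F] [Algebra K F] (Q0 : Fin L → Bp A F) (i0 : Fin L → Fin r)
    (hQ0 : ev (Ψ i0) (vcT Q0) ≠ 0) :
    ∃ x : Fin L → Bp A K × (Fin r → K), (∀ l, x l ∈ E) ∧
      ∑ i, ev (Ψ i) (vcT (fun l => (x l).1)) * ∏ l, (x l).2 (i l) ≠ 0 := by
  classical
  have key : ∀ T : Finset (Fin L), ∃ x : Fin L → Bp A K × (Fin r → K), (∀ l ∈ T, x l ∈ E) ∧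
      ∃ (Q : Fin L → Bp A F) (s : Fin L → Fin r → F), (∀ l ∈ T, Q l = Dns.bc F (x l).1 ∧
        s l = fun c => algebraMap K F ((x l).2 c)) ∧
        ∑ i, ev (Ψ i) (vcT Q) * ∏ l, s l (i l) ≠ 0 := by
    intro T
    induction T using Finset.induction_on with
    | empty =>
      refine ⟨fun _ => (0, 0), by simp, Q0, fun l => Pi.single (i0 l) 1, by simp, ?_⟩
      rw [Finset.sum_eq_single i0]
      · simp only [Pi.single_eq_same, Finset.prod_const_one, mul_one]
        exact hQ0
      · intro i _ hi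
        obtain ⟨l, hl⟩ := Function.ne_iff.1 hi
        rw [Finset.prod_eq_zero (Finset.mem_univ l), mul_zero]
        exact Pi.single_eq_of_ne hl _
      · simp
    | insert a T ha ih =>
      obtain ⟨x, hx, Q, s, hQ, hne⟩ := ih
      obtain ⟨y, hy, hne2⟩ := slotM hΨ Q s a (hE a) hne
      refine ⟨Function.update x a y, fun l hl => ?_,
        Function.update Q a (Dns.bc F y.1),
        Function.update s a (fun c => algebraMap K F (y.2 c)), fun l hl => ?_, hne2⟩
      · by_cases hla : l = a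
        · subst hla
          rw [Function.update_self]
          exact hy
        · rw [Function.update_of_ne hla]
          exact hx l ((Finset.mem_insert.1 hl).resolve_left hla)
      · by_cases hla : l = a
        · subst hla
          rw [Function.update_self, Function.update_self, Function.update_self]
          exact ⟨rfl, rfl⟩
        · rw [Function.update_of_ne hla, Function.update_of_ne hla, Function.update_of_ne hla]
          exact hQ l ((Finset.mem_insert.1 hl).resolve_left hla)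
  obtain ⟨x, hx, Q, s, hQ, hne⟩ := key Finset.univ
  refine ⟨x, fun l => hx l (Finset.mem_univ _), fun h0 => hne ?_⟩
  have h1 : vcT Q = fun p c => algebraMap K F (vcT (fun l => (x l).1) p c) := by
    funext p c
    unfold vcT
    rw [(hQ p.1 (Finset.mem_univ _)).1]
    rfl
  have h2 : ∀ i, ev (Ψ i) (fun p c => algebraMap K F (vcT (fun l => (x l).1) p c)) =
      algebraMap K F (ev (Ψ i) (vcT (fun l => (x l).1))) := by
    intro i
    unfold ev
    exact (MvPolynomial.comp_aeval_apply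
      (f := fun p : (Fin L × Fin β) × Fin n => vcT (fun l => (x l).1) p.1 p.2)
      (Algebra.ofId K F) (Ψ i)).symm
  have h3 : ∀ i : Fin L → Fin r, ∏ l, s l (i l) = algebraMap K F (∏ l, (x l).2 (i l)) := by
    intro i
    rw [map_prod]
    refine Finset.prod_congr rfl (fun l _ => ?_)
    rw [(hQ l (Finset.mem_univ _)).2]
  rw [h1]
  simp_rw [h2, h3, ← map_mul]
  rw [← map_sum, h0, map_zero]

end slot

section rows

variable {K : Type} [Field K] {n β : ℕ} (A : Fin β → AbV K n)

/-- Sets of pairs outside moving hyperplanes of bounded degree contain tuples in general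
position. -/
theorem pickM {r : ℕ} (hr : 0 < r) {L : ℕ}
    {Ξ : (Fin L → Fin r) → MvPolynomial (Gr L β × Fin n) K} {σ : Gr L β → ℕ}
    (hΞ : ∀ i, MH σ (Ξ i)) (hN : ∃ i, Gen.N (Bl A L) (Ξ i)) :
    ∃ d0 : ℕ, ∀ E : Set (Bp A K × (Fin r → K)),
      (∀ τ : Fin β → ℕ, (∀ b, τ b ≤ d0) → GnrM A E τ) →
      ∃ x : Fin (L + 1) → Bp A K × (Fin r → K), (∀ l, x l ∈ E) ∧
        ∑ i, ev (Ξ i) (vcS (df (fun l => (x l).1)) (x 0).1) *
          ∏ l : Fin L, (x l.succ).2 (i l) ≠ 0 := by
  classical
  obtain ⟨i0, F, iF, iA, v, hv, hne⟩ := hN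
  obtain ⟨Q, P, hQP⟩ := exists_vcS A hv
  subst hQP
  let R : Fin (L + 1) → Bp A F := Fin.cons P (fun i => P + Q i)
  have hR0 : R 0 = P := rfl
  have hRs : ∀ i : Fin L, R i.succ = P + Q i := fun i => by
    simp only [R, Fin.cons_succ]
  have hvR : vcS (df R) (R 0) = vcS Q P := by
    have h1 : df R = Q := by
      funext i
      unfold df
      rw [hRs, hR0, add_sub_cancel_left]
    rw [h1, hR0]
  obtain ⟨s, hs, hrow⟩ := ev_Rw A R
  have h3 : ∀ p : Fin L × Fin β, ∃ c, ((R p.1.succ + R 0) p.2).1 c = 1 := by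
    intro p
    obtain ⟨c, hc, -⟩ := ((R p.1.succ + R 0) p.2).2.1
    exact ⟨c, hc⟩
  choose c0 hc0 using h3
  choose σ' hσ' using fun l => MH_Rw A c0 l
  have hMH : ∀ i, MH (fun j => ∑ l, σ l * σ' l j) (Pool.Agent.TH954.X.cmp (Ξ i) (Rw A c0)) :=
    fun i => MH_cmp (hΞ i) (Rw A c0) σ' hσ'
  have hneR : ev (Pool.Agent.TH954.X.cmp (Ξ i0) (Rw A c0)) (vcT R) ≠ 0 := by
    rw [ev_cmp]
    have h4 : (fun (l : Gr L β) (c : Fin n) => ev (Rw A c0 l c) (vcT R)) =
        fun l => (Sum.elim (fun p => s p *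
        ((R p.1.succ + R 0) p.2).1 (c0 p)) (fun _ => 1) : Gr L β → F) l •
          vcS (df R) (R 0) l := by
      funext l
      exact hrow c0 l
    rw [h4, ev_smul (hΞ i0), hvR]
    refine mul_ne_zero (Finset.prod_ne_zero_iff.2 fun l _ => pow_ne_zero _ ?_) hne
    rcases l with p | b
    · simp only [Sum.elim_inl, hc0, mul_one]
      exact hs p
    · simp only [Sum.elim_inr]
      exact one_ne_zero
  let k0 : Fin r := ⟨0, hr⟩
  let Ψ : (Fin (L + 1) → Fin r) → MvPolynomial ((Fin (L + 1) × Fin β) × Fin n) K := fun j =>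
    if j 0 = k0 then Pool.Agent.TH954.X.cmp (Ξ (fun l => j l.succ)) (Rw A c0) else 0
  have hΨ : ∀ j, MH (fun j => ∑ l, σ l * σ' l j) (Ψ j) := by
    intro j
    by_cases hj : j 0 = k0
    · simp only [Ψ, if_pos hj]
      exact hMH _
    · simp only [Ψ, if_neg hj]
      intro m hm
      simp at hm
  have hΨ0 : ev (Ψ (Fin.cons k0 i0)) (vcT R) ≠ 0 := by
    have h4 : Ψ (Fin.cons k0 i0) = Pool.Agent.TH954.X.cmp (Ξ i0) (Rw A c0) := by
      simp only [Ψ, Fin.cons_zero, if_true, Fin.cons_succ]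
    rw [h4]
    exact hneR
  refine ⟨∑ p, ∑ l, σ l * σ' l p, fun E hE => ?_⟩
  obtain ⟨x, hx, hx2⟩ := densM hΨ (E := E) (fun a => hE _ (fun b =>
    Finset.single_le_sum (f := fun p => ∑ l, σ l * σ' l p) (fun _ _ => Nat.zero_le _)
      (Finset.mem_univ (a, b)))) R (Fin.cons k0 i0) hΨ0
  refine ⟨x, hx, fun h0 => hx2 ?_⟩
  obtain ⟨s', -, hrow'⟩ := ev_Rw A (fun l => (x l).1)
  have h5 : ∀ i, ev (Pool.Agent.TH954.X.cmp (Ξ i) (Rw A c0)) (vcT (fun l => (x l).1)) =
      (∏ l : Gr L β, (Sum.elim (fun p => s' p *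
          (((x p.1.succ).1 + (x 0).1) p.2).1 (c0 p)) (fun _ => 1) : Gr L β → K) l ^ σ l) *
        ev (Ξ i) (vcS (df (fun l => (x l).1)) (x 0).1) := by
    intro i
    rw [ev_cmp, ← ev_smul (hΞ i)]
    congr 1
    funext l
    exact hrow' c0 l
  rw [← (Fin.consEquiv (fun _ : Fin (L + 1) => Fin r)).sum_comp, Fintype.sum_prod_type]
  have h6 : ∀ (k : Fin r) (i : Fin L → Fin r),
      ev (Ψ (Fin.consEquiv (fun _ : Fin (L + 1) => Fin r) (k, i))) (vcT (fun l => (x l).1)) *
        ∏ l, (x l).2 (Fin.consEquiv (fun _ : Fin (L + 1) => Fin r) (k, i) l) =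
      (if k = k0 then (x 0).2 k * (∏ l : Gr L β, (Sum.elim (fun p => s' p *
          (((x p.1.succ).1 + (x 0).1) p.2).1 (c0 p)) (fun _ => 1) : Gr L β → K) l ^ σ l) else 0) *
        (ev (Ξ i) (vcS (df (fun l => (x l).1)) (x 0).1) * ∏ l : Fin L, (x l.succ).2 (i l)) := by
    intro k i
    have h7 : Fin.consEquiv (fun _ : Fin (L + 1) => Fin r) (k, i) = Fin.cons k i := rfl
    rw [h7, Fin.prod_univ_succ]
    simp only [Fin.cons_zero, Fin.cons_succ]
    by_cases hk : k = k0
    · simp only [Ψ, Fin.cons_zero, Fin.cons_succ, if_pos hk]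
      rw [h5]
      ring
    · simp only [Ψ, Fin.cons_zero, if_neg hk]
      simp [ev]
  simp_rw [h6, ← Finset.mul_sum]
  rw [h0]
  simp

end rows

end Pool.Agent.J4H27.MV
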