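import Pool.Agent.J4H27.MV.AuxM
import Pool.Agent.J4H27.MV.Pk
import Pool.Agent.J4H27.MV.Glo

/-!
# Clusters of exceptional pairs lie on a moving hyperplane of bounded degree
-/

set_option autoImplicit false
set_option linter.unusedSectionVars false

open MvPolynomial Pool.Agent.TH954.X Pool.Agent.TH954.V Pool.Agent.TH954.Z
  Pool.Agent.TH954.Y Pool.Agent.J4H27.AB NumberField Height

namespace Pool.Agent.J4H27.MV

section defs

variable {K : Type} [Field K] {n β : ℕ}

/-- the set `E` is contained in a moving hyperplane of multidegree at most `d` -/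
def InMov (A : Fin β → AbV K n) {r : ℕ} (d : ℕ) (E : Set (Bp A K × (Fin r → K))) : Prop :=
  ∃ (Φ : Fin r → MvPolynomial (Fin β × Fin n) K) (τ : Fin β → ℕ), (∀ b, τ b ≤ d) ∧
    (∀ c, MH τ (Φ c)) ∧ (∃ c, NZ A (Φ c)) ∧ ∀ x ∈ E, ∑ c, x.2 c * ev (Φ c) (vc x.1) = 0

lemma InMov.mono {A : Fin β → AbV K n} {r : ℕ} {d d' : ℕ} {E : Set (Bp A K × (Fin r → K))}
    (h : InMov A d E) (hd : d ≤ d') : InMov A d' E := by
  obtain ⟨Φ, τ, h1, h2, h3, h4⟩ := h
  exact ⟨Φ, τ, fun b => (h1 b).trans hd, h2, h3, h4⟩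

lemma InMov.sub {A : Fin β → AbV K n} {r : ℕ} {d : ℕ} {E E' : Set (Bp A K × (Fin r → K))}
    (h : InMov A d E) (hE : E' ⊆ E) : InMov A d E' := by
  obtain ⟨Φ, τ, h1, h2, h3, h4⟩ := h
  exact ⟨Φ, τ, h1, h2, h3, fun P hP => h4 P (hE hP)⟩

lemma gnrM_of {A : Fin β → AbV K n} {r : ℕ} {d : ℕ} {E : Set (Bp A K × (Fin r → K))}
    (h : ¬ InMov A d E) (τ : Fin β → ℕ) (hτ : ∀ b, τ b ≤ d) : GnrM A E τ := by
  intro Φ h1 h2 c hc
  exact h ⟨Φ, τ, hτ, h1, ⟨c, hc⟩, h2⟩

end defs

section param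

/-- the choice of `L` and `D'` -/
lemma exists_par (r : ℕ) (hr : 0 < r) (NV C1 g Hβ : ℕ) (η ε : ℝ) (hη : 0 < η) (hε : 0 < ε) :
    ∃ L D' : ℕ, 0 < L ∧ (g : ℝ) * D' ≤ ε * L ∧
      ∀ m : ℕ, (m : ℝ) ≤ NV * (((Finset.univ : Finset (Fin L → Fin r)).filter
        (fun I => ∃ k, (nk I k : ℝ) < (1 / r - η) * L)).card : ℝ) →
        m * (2 * (C1 * (1 + (g * D' + 2 * Hβ * L)) ^ g)) < (D' + 1) ^ g * r ^ L := by
  classical
  set ε' : ℝ := ε / (g + 1) with hε'
  have hε'0 : 0 < ε' := by positivity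
  set C2 : ℝ := 1 + g + 2 * Hβ / ε' with hC2
  have hC20 : 0 < C2 := by positivity
  set X : ℝ := NV * (2 * (C1 * C2 ^ g)) with hX
  have hX0 : 0 ≤ X := by positivity
  obtain ⟨L0, hL0⟩ := bad_count r hr η hη (1 / (X + 1)) (by positivity)
  set L : ℕ := max L0 1 with hL
  have hL1 : 0 < L := lt_of_lt_of_le one_pos (le_max_right _ _)
  set D' : ℕ := ⌊ε' * L⌋₊ with hD'
  have hLR : (0 : ℝ) < L := by exact_mod_cast hL1
  have hD1 : (D' : ℝ) ≤ ε' * L := Nat.floor_le (by positivity)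
  have hD2 : ε' * L < D' + 1 := Nat.lt_floor_add_one _
  refine ⟨L, D', hL1, ?_, fun m hm => ?_⟩
  · calc (g : ℝ) * D' ≤ g * (ε' * L) := by gcongr
      _ = (g / (g + 1)) * (ε * L) := by rw [hε']; field_simp
      _ ≤ 1 * (ε * L) := by
          refine mul_le_mul_of_nonneg_right ?_ (by positivity)
          rw [div_le_one (by positivity)]
          linarith
      _ = ε * L := one_mul _
  · have hbad := hL0 L (le_max_left _ _)
    have hrL : (0 : ℝ) < (r : ℝ) ^ L := by positivity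
    have hE : (1 + (g * D' + 2 * Hβ * L) : ℝ) ≤ C2 * (D' + 1) := by
      have h1 : (L : ℝ) ≤ (D' + 1) / ε' := by
        rw [le_div_iff₀ hε'0]
        linarith
      have h2 : (2 * Hβ * L : ℝ) ≤ 2 * Hβ / ε' * (D' + 1) := by
        calc (2 * Hβ * L : ℝ) ≤ 2 * Hβ * ((D' + 1) / ε') := by gcongr
          _ = _ := by ring
      have h3 : (0 : ℝ) ≤ D' := Nat.cast_nonneg _
      have h4 : (0 : ℝ) ≤ g := Nat.cast_nonneg _
      rw [hC2]
      nlinarith
    have h1 : (m : ℝ) * (2 * (C1 * (1 + (g * D' + 2 * Hβ * L)) ^ g)) <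
        (D' + 1) ^ g * r ^ L := by
      have h2 : (1 + (g * D' + 2 * Hβ * L) : ℝ) ^ g ≤ C2 ^ g * (D' + 1) ^ g := by
        rw [← mul_pow]
        exact pow_le_pow_left₀ (by positivity) hE g
      have h3 : (m : ℝ) ≤ NV * (1 / (X + 1) * r ^ L) :=
        hm.trans (mul_le_mul_of_nonneg_left hbad (Nat.cast_nonneg _))
      calc (m : ℝ) * (2 * (C1 * (1 + (g * D' + 2 * Hβ * L)) ^ g))
          ≤ (NV * (1 / (X + 1) * r ^ L)) * (2 * (C1 * (C2 ^ g * (D' + 1) ^ g))) := by gcongr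
        _ = X / (X + 1) * ((D' + 1) ^ g * r ^ L) := by rw [hX]; ring
        _ < 1 * ((D' + 1) ^ g * r ^ L) := by
            refine mul_lt_mul_of_pos_right ?_ (by positivity)
            rw [div_lt_one (by positivity)]
            linarith
        _ = _ := one_mul _
    exact_mod_cast h1

end param

section clu

variable {K : Type} [Field K] [NumberField K] {n β r q : ℕ}

theorem cluM (A : Fin β → AbV K n) (hTop : Top A) (D : Mvh K n β r q) (hr : 0 < r)
    (S1 : Finset (InfinitePlace K)) (S2 : Finset (FinitePlace K)) (ε M : ℝ) (hε : 0 < ε)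
    (hM : 0 ≤ M) :
    ∃ (d0 : ℕ) (ρ η : ℝ), 0 < ρ ∧ 0 < η ∧ η ≤ ε ∧ ∀ C0 : ℝ, ∃ T0 : ℝ, ∀ T, T0 ≤ T →
      ∀ (E : Set (Bp A K × (Fin r → K))) (H : ℝ) (e : AbsoluteValue K ℝ → Fin r ↪ Fin q)
        (μ : AbsoluteValue K ℝ → Fin r → ℝ),
      (∀ w k, 0 ≤ μ w k ∧ μ w k ≤ M * T) →
      r * H + ε * T ≤ sS S1 S2 (fun w => ∑ k, μ w k) →
      (∀ x ∈ E, x.2 ≠ 0 ∧ ht x.1 ≤ T ∧ logHeight x.2 ≤ H + η * T) →
      (∀ x ∈ E, ∀ y ∈ E, ht (x.1 - y.1) ≤ ρ * T + C0) →
      (∀ x ∈ E, ∀ w, InS S1 S2 w → (∀ k, D.lv x (e w k) ≠ 0 ∧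
        μ w k - η * T ≤ D.lam w x (e w k)) ∧ ev (D.dt (e w)) (vc x.1) ≠ 0 ∧
        -Real.log (nvW w (D.dd (e w)) (D.dt (e w)) (vc x.1)) ≤ η * T) →
      InMov A d0 E := by
  classical
  obtain ⟨C1, hC1, haux⟩ := auxM A hTop
  set g : ℕ := ∑ b, (A b).dim with hg
  have hrR : (0 : ℝ) < r := by exact_mod_cast hr
  set m : ℝ := sS S1 S2 (fun _ => 1) with hm
  have hm0 : 0 ≤ m := sS_nonneg (fun _ => zero_le_one)
  set Hd : ℕ := ∑ _k : Fin r, ∑ j, ∑ b, D.δ j b with hHd
  set V := (Fin r ↪ Fin q) with hV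
  -- the degrees of the adjugates
  have hdA : ∀ (e : V) (k : Fin r) (b : Fin β), dA (fun k' => D.δ (e k')) k b ≤ Hd := by
    intro e k b
    unfold dA
    rw [hHd]
    refine Finset.sum_le_sum (fun k' _ => ?_)
    have h1 : D.δ (e k') b ≤ ∑ j, ∑ b, D.δ j b :=
      (Finset.single_le_sum (f := fun b => D.δ (e k') b) (fun _ _ => Nat.zero_le _)
        (Finset.mem_univ b)).trans
      (Finset.single_le_sum (f := fun j => ∑ b, D.δ j b) (fun _ _ => Nat.zero_le _)
        (Finset.mem_univ (e k')))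
    split_ifs
    · exact Nat.zero_le _
    · exact h1
  -- parameters
  set η1 : ℝ := ε / (8 * r * (m * r * M + 1)) with hη1
  have hmM : 0 ≤ m * r * M := by positivity
  have hη10 : 0 < η1 := by positivity
  obtain ⟨L, D', hL0, hgD, hcard⟩ := exists_par r hr (Fintype.card V) C1 g (Hd * β) η1
    (ε / (16 * r)) hη10 (by positivity)
  have hLR : (0 : ℝ) < L := by exact_mod_cast hL0
  set Bad : Finset (V × (Fin L → Fin r)) := Finset.univ ×ˢ
    ((Finset.univ : Finset (Fin L → Fin r)).filter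
      (fun I => ∃ k, (nk I k : ℝ) < (1 / r - η1) * L)) with hBad
  have hBc : Bad.card * (2 * (C1 * (1 + (g * D' + 2 * Hd * L * β)) ^ g)) <
      (D' + 1) ^ g * r ^ L := by
    have h1 := hcard Bad.card (by
      rw [hBad, Finset.card_product, Finset.card_univ]
      push_cast
      exact le_rfl)
    have h2 : 2 * (Hd * β) * L = 2 * Hd * L * β := by ring
    rwa [h2] at h1
  obtain ⟨T', Fm, hFm, hFN, hvan⟩ := haux Hd V r (fun e => D.ad e)
    (fun e k => dA (fun k' => D.δ (e k')) k) (fun e i k => D.ad_hom e i k) hdA L D' Bad hBc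
  set σ : Gr L β → ℕ := Sum.elim (fun _ => T') (fun b => (A b).dim * D') with hσ
  obtain ⟨d0, hpick⟩ := pickM A hr hFm hFN
  choose Cl hCl0 hCl using fun p : V × AbsoluteValue K ℝ =>
    D.loc A (p.1 : Fin r → Fin q) Fm σ hFm p.2
  obtain ⟨Cg, hCg0, hCg⟩ := glo A Fm σ hFm S1 S2
  set Cs : ℝ := sS S1 S2 (fun w => ∑ e : V, Cl (e, w)) with hCs
  have hCs0 : 0 ≤ Cs := sS_nonneg (fun w => Finset.sum_nonneg (fun e _ => hCl0 (e, w)))
  set B1 : ℝ := T' * (L * β) with hB1
  have hB10 : 0 ≤ B1 := by positivity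
  set ρ : ℝ := ε * L / (8 * r * (B1 + 1)) with hρ
  have hρ0 : 0 < ρ := by positivity
  set η : ℝ := min ε (ε / (8 * r * (2 * m + 1))) with hηd
  have hη0 : 0 < η := lt_min hε (by positivity)
  have hη8 : η * (2 * m + 1) ≤ ε / (8 * r) := by
    have h1 : η ≤ ε / (8 * r * (2 * m + 1)) := min_le_right _ _
    have h2 : 0 < 2 * m + 1 := by positivity
    calc η * (2 * m + 1) ≤ ε / (8 * r * (2 * m + 1)) * (2 * m + 1) := by gcongr
      _ = ε / (8 * r) := by field_simp
  refine ⟨d0, ρ, η, hρ0, hη0, min_le_left _ _, fun C0 => ?_⟩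
  set C3 : ℝ := Cs + Cg + B1 * |C0| with hC3
  have hC30 : 0 ≤ C3 := by positivity
  refine ⟨(C3 + 1) * (2 * r) / (ε * L), fun T hT E H e μ hμ hμs hE1 hE2 hE3 => ?_⟩
  by_contra hcon
  obtain ⟨x, hx, hne⟩ := hpick E (fun τ hτ => gnrM_of hcon τ hτ)
  have hεL : 0 < ε * L := by positivity
  rw [div_le_iff₀ hεL] at hT
  have hTpos : 0 < T := by
    by_contra h
    push Not at h
    have h1 : T * (ε * L) ≤ 0 := mul_nonpos_of_nonpos_of_nonneg h hεL.le
    have h2 : 0 < (C3 + 1) * (2 * r) := by positivity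
    linarith
  set P : Bp A K := (x 0).1 with hP
  set Q : Fin L → Bp A K := df (fun l => (x l).1) with hQ
  set t : Fin L → Fin r → K := fun l => (x l.succ).2 with htd
  have hQR : ∀ l : Fin L, P + Q l = (x l.succ).1 := by
    intro l
    change (x 0).1 + ((x l.succ).1 - (x 0).1) = _
    rw [add_sub_cancel]
  have hxe : ∀ l : Fin L, (P + Q l, t l) = x l.succ := by
    intro l
    rw [hQR]
  have hQh : ∀ l, ht (Q l) ≤ ρ * T + |C0| := by
    intro l
    have h1 := hE2 _ (hx l.succ) _ (hx 0)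
    have h2 := le_abs_self C0
    change ht ((x l.succ).1 - (x 0).1) ≤ _
    linarith
  have htne : ∀ l, t l ≠ 0 := fun l => (hE1 _ (hx l.succ)).1
  -- the estimate at the places in `S`
  set sμ : ℝ := sS S1 S2 (fun w => ∑ k, μ w k) with hsμ
  have hloc : ∀ w, InS S1 S2 w →
      Real.log (w (∑ i, ev (Fm i) (vcS Q P) * ∏ l, t l (i l))) +
        (((1 / r - η1) * L) * (∑ k, μ w k) + ((-(2 * L * (η * T))) +
          (-1) * ∑ e : V, Cl (e, w))) ≤
        ∑ j, (σ j : ℝ) * Real.log (⨆ c, w (vcS Q P j c)) + ∑ l, Real.log (⨆ c, w (t l c)) := by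
    intro w hw
    have h1 := hCl (e w, w) Q P t (fun k => μ w k - η * T)
      (((1 / r - η1) * L) * (∑ k, μ w k) - L * (η * T)) htne ?_ ?_ ?_ hne
    · have h2 : ∀ l : Fin L, -(η * T) ≤
          Real.log (nvW w (D.dd (e w)) (D.dt (e w)) (vc (P + Q l))) := by
        intro l
        have h3 := (hE3 _ (hx l.succ) w hw).2.2
        rw [hQR]
        linarith
      have h3 : ∑ _l : Fin L, -(η * T) ≤ ∑ l : Fin L,
          Real.log (nvW w (D.dd (e w)) (D.dt (e w)) (vc (P + Q l))) :=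
        Finset.sum_le_sum (fun l _ => h2 l)
      rw [Finset.sum_const, Finset.card_univ, Fintype.card_fin, nsmul_eq_mul] at h3
      have h4 : Cl (e w, w) ≤ ∑ e : V, Cl (e, w) :=
        Finset.single_le_sum (f := fun e : V => Cl (e, w)) (fun e _ => hCl0 (e, w))
          (Finset.mem_univ (e w))
      linarith
    · intro I hI
      have h2 : ((e w, I) : V × (Fin L → Fin r)) ∉ Bad := by
        intro h3
        exact hI (hvan _ h3 K Q P)
      have h3 : ∀ k, (1 / r - η1) * L ≤ (nk I k : ℝ) := by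
        by_contra h4
        push Not at h4
        apply h2
        rw [hBad, Finset.mem_product, Finset.mem_filter]
        exact ⟨Finset.mem_univ _, Finset.mem_univ _, h4⟩
      rw [sum_nk I (fun k => μ w k - η * T)]
      have h4 : ∑ k, (nk I k : ℝ) * (μ w k - η * T) =
          ∑ k, (nk I k : ℝ) * μ w k - (∑ k, (nk I k : ℝ) * 1) * (η * T) := by
        rw [Finset.sum_mul, ← Finset.sum_sub_distrib]
        exact Finset.sum_congr rfl (fun k _ => by ring)
      have h5 : ∑ k, (nk I k : ℝ) * 1 = L := by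
        rw [← sum_nk I (fun _ => 1), Finset.sum_const, Finset.card_univ, Fintype.card_fin,
          nsmul_eq_mul, mul_one]
      rw [h4, h5, Finset.mul_sum]
      have h6 : ∑ k, (1 / r - η1) * L * μ w k ≤ ∑ k, (nk I k : ℝ) * μ w k :=
        Finset.sum_le_sum (fun k _ => mul_le_mul_of_nonneg_right (h3 k) (hμ w k).1)
      linarith
    · intro l k
      rw [hxe]
      exact (hE3 _ (hx l.succ) w hw).1 k
    · intro l
      rw [hQR]
      exact (hE3 _ (hx l.succ) w hw).2.1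
  have hglo := hCg Q P t _ htne hne hloc
  rw [sS_add (fun w => ((1 / r - η1) * L) * (∑ k, μ w k))
    (fun w => (-(2 * L * (η * T))) + (-1) * ∑ e : V, Cl (e, w)),
    sS_mul, sS_add (fun _ => (-(2 * L * (η * T)))) (fun w => (-1) * ∑ e : V, Cl (e, w)),
    sS_const, sS_mul, ← hm, ← hCs, ← hsμ] at hglo
  -- heights
  have hh1 : ∑ j, (σ j : ℝ) * logHeight (vcS Q P j) ≤ B1 * (ρ * T + |C0|) + g * D' * T := by
    rw [Fintype.sum_sum_type]
    refine add_le_add ?_ ?_
    · have h1 : ∀ p : Fin L × Fin β, (σ (Sum.inl p) : ℝ) * logHeight (vcS Q P (Sum.inl p)) ≤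
          T' * (ρ * T + |C0|) := by
        intro p
        refine mul_le_mul_of_nonneg_left ?_ (Nat.cast_nonneg _)
        refine le_trans ?_ (hQh p.1)
        exact Finset.single_le_sum (f := fun b => logHeight (vc (Q p.1) b))
          (fun _ _ => logHeight_nonneg _) (Finset.mem_univ p.2)
      refine (Finset.sum_le_sum (fun p _ => h1 p)).trans (le_of_eq ?_)
      rw [Finset.sum_const, Finset.card_univ, Fintype.card_prod, Fintype.card_fin,
        Fintype.card_fin, nsmul_eq_mul, hB1]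
      push_cast
      ring
    · have h1 : ∀ b : Fin β, (σ (Sum.inr b) : ℝ) * logHeight (vcS Q P (Sum.inr b)) ≤
          ((A b).dim * D' : ℝ) * T := by
        intro b
        have h2 : (σ (Sum.inr b) : ℝ) = (A b).dim * D' := by
          rw [hσ]
          simp
        rw [h2]
        refine mul_le_mul_of_nonneg_left ?_ (by positivity)
        refine le_trans ?_ (hE1 _ (hx 0)).2.1
        exact Finset.single_le_sum (f := fun b => logHeight (vc P b))
          (fun _ _ => logHeight_nonneg _) (Finset.mem_univ b)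
      refine (Finset.sum_le_sum (fun b _ => h1 b)).trans (le_of_eq ?_)
      rw [← Finset.sum_mul, ← Finset.sum_mul, hg]
      push_cast
      rfl
  have hh2 : ∑ l, logHeight (t l) ≤ L * (H + η * T) := by
    refine (Finset.sum_le_sum (fun l _ => (hE1 _ (hx l.succ)).2.2)).trans (le_of_eq ?_)
    rw [Finset.sum_const, Finset.card_univ, Fintype.card_fin, nsmul_eq_mul]
  -- the sum of the `μ`
  have hsμ2 : sμ ≤ m * r * M * T := by
    have h1 : sμ ≤ sS S1 S2 (fun _ => r * (M * T)) := by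
      refine sS_mono (fun w _ => ?_)
      refine (Finset.sum_le_sum (fun k _ => (hμ w k).2)).trans (le_of_eq ?_)
      rw [Finset.sum_const, Finset.card_univ, Fintype.card_fin, nsmul_eq_mul]
    rw [sS_const, ← hm] at h1
    linarith
  have hs1 : η1 * sμ ≤ ε / (8 * r) * T := by
    have h1 : η1 * (m * r * M) ≤ ε / (8 * r) := by
      rw [hη1]
      have h2 : ε / (8 * r * (m * r * M + 1)) * (m * r * M) =
          ε / (8 * r) * ((m * r * M) / (m * r * M + 1)) := by field_simp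
      rw [h2]
      have h3 : (m * r * M) / (m * r * M + 1) ≤ 1 := by
        rw [div_le_one (by positivity)]
        linarith
      have h4 : 0 ≤ ε / (8 * r) := by positivity
      nlinarith
    calc η1 * sμ ≤ η1 * (m * r * M * T) := by gcongr
      _ = η1 * (m * r * M) * T := by ring
      _ ≤ ε / (8 * r) * T := by gcongr
  have hs2 : H + ε / r * T ≤ 1 / r * sμ := by
    have h1 : (r : ℝ) * (H + ε / r * T) ≤ r * (1 / r * sμ) := by
      have h2 : (r : ℝ) * (H + ε / r * T) = r * H + ε * T := by field_simp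
      have h3 : (r : ℝ) * (1 / r * sμ) = sμ := by field_simp
      rw [h2, h3]
      exact hμs
    exact le_of_mul_le_mul_left h1 hrR
  have hs3 : L * (H + ε / r * T - ε / (8 * r) * T) ≤ (1 / r - η1) * L * sμ := by
    have h1 : (1 / r - η1) * L * sμ = L * (1 / r * sμ - η1 * sμ) := by ring
    rw [h1]
    refine mul_le_mul_of_nonneg_left ?_ hLR.le
    linarith
  have hB1ρ : B1 * ρ ≤ ε / (8 * r) * L := by
    rw [hρ]
    have h2 : B1 * (ε * L / (8 * r * (B1 + 1))) = ε / (8 * r) * L * (B1 / (B1 + 1)) := by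
      field_simp
    rw [h2]
    have h3 : B1 / (B1 + 1) ≤ 1 := by
      rw [div_le_one (by positivity)]
      linarith
    have h4 : 0 ≤ ε / (8 * r) * L := by positivity
    nlinarith
  have hB1T : B1 * (ρ * T) ≤ ε / (8 * r) * L * T := by
    rw [← mul_assoc]
    exact mul_le_mul_of_nonneg_right hB1ρ hTpos.le
  have hgDT : g * D' * T ≤ ε / (16 * r) * L * T := mul_le_mul_of_nonneg_right hgD hTpos.le
  have hηT : L * T * (η * (2 * m + 1)) ≤ L * T * (ε / (8 * r)) :=
    mul_le_mul_of_nonneg_left hη8 (by positivity)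
  have hfin : L * (ε / r * T) - (3 * (ε / (8 * r)) + ε / (16 * r)) * (L * T) ≤ C3 := by
    rw [hC3]
    nlinarith
  have hfin2 : L * (ε / r * T) - (3 * (ε / (8 * r)) + ε / (16 * r)) * (L * T) =
      9 / (16 * r) * (T * (ε * L)) := by
    field_simp
    ring
  rw [hfin2] at hfin
  have h1 : 9 / (16 * r) * ((C3 + 1) * (2 * r)) ≤ 9 / (16 * r) * (T * (ε * L)) :=
    mul_le_mul_of_nonneg_left hT (by positivity)
  have h2 : 9 / (16 * (r : ℝ)) * ((C3 + 1) * (2 * r)) = 9 / 8 * (C3 + 1) := by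
    field_simp
    ring
  rw [h2] at h1
  linarith

end clu

end Pool.Agent.J4H27.MV
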