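import Mathlib

/-!
# Index functions with unbalanced frequencies
-/

set_option autoImplicit false

open Finset

namespace Pool.Agent.J4H27.MV

/-- the number of times the value `k` is taken -/
def nk {L r : ℕ} (I : Fin L → Fin r) (k : Fin r) : ℕ := (univ.filter (fun l => I l = k)).card

lemma sum_nk {L r : ℕ} (I : Fin L → Fin r) (f : Fin r → ℝ) :
    ∑ l, f (I l) = ∑ k, (nk I k : ℝ) * f k := by
  classical
  have h1 : ∀ l, f (I l) = ∑ k, if I l = k then f k else 0 := by
    intro l
    rw [Finset.sum_ite_eq]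
    simp
  simp_rw [h1]
  rw [Finset.sum_comm]
  refine Finset.sum_congr rfl (fun k _ => ?_)
  rw [← Finset.sum_filter, Finset.sum_const, nsmul_eq_mul]
  rfl

lemma sum_pow_nk {L r : ℕ} (x : ℝ) (k : Fin r) :
    ∑ I : Fin L → Fin r, x ^ nk I k = (x + (r - 1)) ^ L := by
  classical
  have h1 : ∀ I : Fin L → Fin r, x ^ nk I k = ∏ l, (if I l = k then x else 1) := by
    intro I
    rw [Finset.prod_ite, Finset.prod_const_one, mul_one, Finset.prod_const]
    rfl
  have h2 : ∑ i : Fin r, (if i = k then x else (1 : ℝ)) = x + (r - 1) := by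
    rw [← Finset.add_sum_erase _ _ (Finset.mem_univ k), if_pos rfl]
    congr 1
    have h3 : ∑ i ∈ univ.erase k, (if i = k then x else (1 : ℝ)) = ∑ i ∈ univ.erase k, 1 :=
      Finset.sum_congr rfl (fun i hi => if_neg (Finset.ne_of_mem_erase hi))
    rw [h3, Finset.sum_const, Finset.card_erase_of_mem (Finset.mem_univ k), Finset.card_univ,
      Fintype.card_fin, nsmul_eq_mul, mul_one]
    have h4 : 1 ≤ r := Nat.one_le_iff_ne_zero.2 (fun h => by subst h; exact k.elim0)
    push_cast [Nat.cast_sub h4]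
    ring
  simp_rw [h1]
  rw [← h2, Fintype.sum_pow]

/-- few index functions are unbalanced -/
lemma bad_count (r : ℕ) (hr : 0 < r) (η : ℝ) (hη : 0 < η) (c : ℝ) (hc : 0 < c) :
    ∃ L0 : ℕ, ∀ L : ℕ, L0 ≤ L →
      (((univ : Finset (Fin L → Fin r)).filter
        (fun I => ∃ k, (nk I k : ℝ) < (1 / r - η) * L)).card : ℝ) ≤ c * (r : ℝ) ^ L := by
  classical
  have hr0 : (0 : ℝ) < r := by exact_mod_cast hr
  have hr1 : (1 : ℝ) ≤ r := by exact_mod_cast hr
  set θ : ℝ := max 0 (1 / r - η) with hθ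
  have hθ0 : 0 ≤ θ := le_max_left _ _
  have hθr : θ * r < 1 := by
    rcases le_total 0 (1 / r - η) with h | h
    · rw [hθ, max_eq_right h, sub_mul, one_div, inv_mul_cancel₀ hr0.ne']
      nlinarith
    · rw [hθ, max_eq_left h, zero_mul]
      exact one_pos
  set x : ℝ := (1 + θ * r) / 2 with hx
  have hx0 : 0 < x := by positivity
  have hx1 : x < 1 := by rw [hx]; linarith
  have hxθ : θ * r < x := by rw [hx]; linarith
  have hpow : 0 < x ^ θ := Real.rpow_pos_of_pos hx0 _
  -- the main inequality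
  have hmain : x + (r - 1) < r * x ^ θ := by
    have h1 : 1 + θ * Real.log x ≤ x ^ θ := by
      have h2 := Real.add_one_le_exp (θ * Real.log x)
      rw [Real.rpow_def_of_pos hx0, mul_comm (Real.log x)]
      linarith
    have h2 : 1 - x⁻¹ ≤ Real.log x := Real.one_sub_inv_le_log_of_pos hx0
    have h3 : 1 + θ * (1 - x⁻¹) ≤ x ^ θ := by nlinarith
    have h4 : r * (1 + θ * (1 - x⁻¹)) ≤ r * x ^ θ := mul_le_mul_of_nonneg_left h3 hr0.le
    refine lt_of_lt_of_le ?_ h4
    have h5 : r * (1 + θ * (1 - x⁻¹)) - (x + (r - 1)) = (1 - x) * (x - θ * r) / x := by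
      field_simp
      ring
    have h6 : 0 < (1 - x) * (x - θ * r) / x := by
      refine div_pos (mul_pos ?_ ?_) hx0 <;> linarith
    linarith
  set ρ : ℝ := (x + (r - 1)) / (r * x ^ θ) with hρ
  have hxr : 0 < x + (r - 1) := by linarith
  have hρ0 : 0 < ρ := div_pos hxr (by positivity)
  have hρ1 : ρ < 1 := (div_lt_one (by positivity)).2 hmain
  -- the count
  have hk : ∀ (L : ℕ) (k : Fin r), (((univ : Finset (Fin L → Fin r)).filter
      (fun I => (nk I k : ℝ) < (1 / r - η) * L)).card : ℝ) ≤ (r : ℝ) ^ L * ρ ^ L := by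
    intro L k
    have h1 : (((univ : Finset (Fin L → Fin r)).filter
      (fun I => (nk I k : ℝ) < (1 / r - η) * L)).card : ℝ) * (x ^ θ) ^ L ≤
        (x + (r - 1)) ^ L := by
      rw [← sum_pow_nk x k, ← nsmul_eq_mul, ← Finset.sum_const]
      refine (Finset.sum_le_sum (fun I hI => ?_)).trans
        (Finset.sum_le_sum_of_subset_of_nonneg (Finset.subset_univ _)
          (fun I _ _ => pow_nonneg hx0.le _))
      rw [Finset.mem_filter] at hI
      rw [← Real.rpow_natCast (x ^ θ) L, ← Real.rpow_mul hx0.le, ← Real.rpow_natCast x (nk I k)]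
      refine Real.rpow_le_rpow_of_exponent_ge hx0 hx1.le ?_
      refine hI.2.le.trans ?_
      exact mul_le_mul_of_nonneg_right (le_max_right _ _) (Nat.cast_nonneg _)
    rw [← le_div_iff₀ (pow_pos hpow L)] at h1
    refine h1.trans (le_of_eq ?_)
    rw [← mul_pow, ← div_pow, hρ]
    congr 1
    field_simp
  obtain ⟨m, hm⟩ := exists_pow_lt_of_lt_one (div_pos hc hr0) hρ1
  refine ⟨m, fun L hL => ?_⟩
  have h1 : (univ : Finset (Fin L → Fin r)).filter
      (fun I => ∃ k, (nk I k : ℝ) < (1 / r - η) * L) ⊆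
      univ.biUnion (fun k => (univ : Finset (Fin L → Fin r)).filter
        (fun I => (nk I k : ℝ) < (1 / r - η) * L)) := by
    intro I hI
    rw [Finset.mem_filter] at hI
    obtain ⟨k, hk⟩ := hI.2
    exact Finset.mem_biUnion.2 ⟨k, Finset.mem_univ k, Finset.mem_filter.2 ⟨Finset.mem_univ _, hk⟩⟩
  have h2 : (((univ : Finset (Fin L → Fin r)).filter
        (fun I => ∃ k, (nk I k : ℝ) < (1 / r - η) * L)).card : ℝ) ≤
      ∑ k : Fin r, (((univ : Finset (Fin L → Fin r)).filter
        (fun I => (nk I k : ℝ) < (1 / r - η) * L)).card : ℝ) := by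
    have h3 := (Finset.card_le_card h1).trans Finset.card_biUnion_le
    exact_mod_cast h3
  have h3 : ∑ k : Fin r, (((univ : Finset (Fin L → Fin r)).filter
        (fun I => (nk I k : ℝ) < (1 / r - η) * L)).card : ℝ) ≤
      ∑ _k : Fin r, (r : ℝ) ^ L * ρ ^ L := Finset.sum_le_sum (fun k _ => hk L k)
  rw [Finset.sum_const, Finset.card_univ, Fintype.card_fin, nsmul_eq_mul] at h3
  have h4 : ρ ^ L ≤ c / r := (pow_le_pow_of_le_one hρ0.le hρ1.le hL).trans hm.le
  have h5 : (r : ℝ) * ρ ^ L ≤ c := by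
    rw [le_div_iff₀ hr0] at h4
    linarith
  have h6 : (0 : ℝ) < (r : ℝ) ^ L := pow_pos hr0 L
  calc _ ≤ _ := h2.trans h3
    _ = (r * ρ ^ L) * (r : ℝ) ^ L := by ring
    _ ≤ c * (r : ℝ) ^ L := mul_le_mul_of_nonneg_right h5 h6.le

/-- a choice of `r` indices with large values -/
lemma choose_large {r q : ℕ} (hq : r ≤ q) (x : Fin q → ℝ) (B : ℝ)
    (hB : 0 ≤ B) (h : ∀ e : Fin r ↪ Fin q, ∃ k, x (e k) ≤ B) (hr : 0 < r) :
    ∃ e : Fin r ↪ Fin q, ∑ j, x j ≤ ∑ k, x (e k) + q * B := by
  classical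
  have hne : Nonempty (Fin r ↪ Fin q) :=
    Function.Embedding.nonempty_of_card_le (by simpa using hq)
  obtain ⟨e, he⟩ := Finite.exists_max (fun e : Fin r ↪ Fin q => ∑ k, x (e k))
  refine ⟨e, ?_⟩
  -- elements outside the range
  have h1 : ∀ j, j ∉ Set.range e → ∀ k, x j ≤ x (e k) := by
    intro j hj k
    let e' : Fin r ↪ Fin q := ⟨Function.update e k j, by
      intro a b hab
      by_cases ha : a = k
      · by_cases hb : b = k
        · rw [ha, hb]
        · subst ha
          rw [Function.update_self, Function.update_of_ne hb] at hab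
          exact absurd ⟨b, hab.symm⟩ hj
      · by_cases hb : b = k
        · subst hb
          rw [Function.update_self, Function.update_of_ne ha] at hab
          exact absurd ⟨a, hab⟩ hj
        · rw [Function.update_of_ne ha, Function.update_of_ne hb] at hab
          exact e.injective hab⟩
    have h2 := he e'
    have he1 : e' k = j := Function.update_self _ _ _
    have he2 : ∀ k', k' ≠ k → e' k' = e k' := fun k' hk' => Function.update_of_ne hk' _ _
    have h3 : ∑ k', x (e' k') = x j + ∑ k' ∈ univ.erase k, x (e k') := by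
      rw [← Finset.add_sum_erase _ _ (Finset.mem_univ k), he1]
      congr 1
      refine Finset.sum_congr rfl (fun k' hk' => ?_)
      rw [he2 k' (Finset.ne_of_mem_erase hk')]
    have h4 : ∑ k', x (e k') = x (e k) + ∑ k' ∈ univ.erase k, x (e k') :=
      (Finset.add_sum_erase _ _ (Finset.mem_univ k)).symm
    rw [h3, h4] at h2
    linarith
  have h2 : ∀ j, j ∉ Set.range e → x j ≤ B := by
    intro j hj
    obtain ⟨k, hk⟩ := h e
    exact (h1 j hj k).trans hk
  have h3 : ∑ j, x j = ∑ j ∈ univ.map e, x j + ∑ j ∈ univ \ univ.map e, x j := by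
    rw [add_comm, Finset.sum_sdiff (Finset.subset_univ _)]
  rw [h3, Finset.sum_map]
  have h4 : ∑ j ∈ univ \ univ.map e, x j ≤ ∑ _j ∈ univ \ univ.map e, B := by
    refine Finset.sum_le_sum (fun j hj => h2 j ?_)
    rintro ⟨k, hk⟩
    rw [Finset.mem_sdiff] at hj
    exact hj.2 (Finset.mem_map.2 ⟨k, Finset.mem_univ k, hk⟩)
  rw [Finset.sum_const, nsmul_eq_mul] at h4
  have h5 : ((univ \ univ.map e : Finset (Fin q)).card : ℝ) ≤ q := by
    have h6 := Finset.card_le_univ (univ \ univ.map e)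
    rw [Fintype.card_fin] at h6
    exact_mod_cast h6
  have h6 : ((univ \ univ.map e : Finset (Fin q)).card : ℝ) * B ≤ q * B :=
    mul_le_mul_of_nonneg_right h5 hB
  linarith

end Pool.Agent.J4H27.MV
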