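import Pool.Agent.J4H27.MV.FinM
import Pool.Agent.TH954.Z.TopB

/-!
# The exceptional pairs of height between `T / 2` and `T`
-/

set_option autoImplicit false
set_option linter.unusedSectionVars false

open MvPolynomial Pool.Agent.TH954.X Pool.Agent.TH954.V Pool.Agent.TH954.Z
  Pool.Agent.TH954.Y Pool.Agent.J4H27.AB NumberField Height

namespace Pool.Agent.J4H27.MV

section main

variable {K : Type} [Field K] [NumberField K] {n β r q : ℕ}

/-- the height of a pair -/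
noncomputable def hx {A : Fin β → AbV K n} (x : Bp A K × (Fin r → K)) : ℝ :=
  ht x.1 + logHeight x.2

lemma ht_nonneg {A : Fin β → AbV K n} (P : Bp A K) : 0 ≤ ht P :=
  Finset.sum_nonneg (fun _ _ => logHeight_nonneg _)

/-- points near the zeros of the determinants -/
lemma ucm_bad (A : Fin β → AbV K n) (hTop : Top A) (Γ : AddSubgroup (Bp A K)) (hΓ : Γ.FG)
    (D : Mvh K n β r q) (hr : 0 < r) (hgp : ∀ e : Fin r ↪ Fin q, NZ A (D.dt e))
    (w : AbsoluteValue K ℝ) (hw : IsPl w) (η : ℝ) (hη : 0 < η) (e : Fin r ↪ Fin q) :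
    UCM A (fun T => {x : Bp A K × (Fin r → K) | x.1 ∈ Γ ∧ ht x.1 ≤ T ∧
      ¬ (ev (D.dt e) (vc x.1) ≠ 0 ∧
        -Real.log (nvW w (D.dd e) (D.dt e) (vc x.1)) ≤ η * T)}) := by
  obtain ⟨N, d, T0, h⟩ := uc_BadA A Γ hΓ (fun _ : Unit => D.dt e) (fun _ => D.dd e)
    (fun _ => D.dt_hom e) (top K n β A hTop (D.dt e) (D.dd e) (D.dt_hom e) (hgp e)) w hw η hη
  refine ⟨N, d, T0, fun T hT => (covM_of_cov hr (h T hT)).sub ?_⟩
  rintro x ⟨h1, h2, h3⟩
  refine ⟨⟨h1, h2⟩, ?_⟩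
  rw [ciSup_const]
  by_cases h0 : ev (D.dt e) (vc x.1) = 0
  · unfold nvW
    rw [h0, map_zero, zero_div]
    exact (Real.exp_pos _).le
  · have h4 : ¬ (-Real.log (nvW w (D.dd e) (D.dt e) (vc x.1)) ≤ η * T) := fun h5 => h3 ⟨h0, h5⟩
    push Not at h4
    have h5 : 0 < nvW w (D.dd e) (D.dt e) (vc x.1) := nvW_pos w _ _ (fun b => vcn _ b) h0
    rw [← Real.exp_log h5]
    exact Real.exp_le_exp.2 (by linarith)

/-- the hyperplanes themselves -/
lemma inMov_self (A : Fin β → AbV K n) (D : Mvh K n β r q) (hr : 0 < r) (hq : r ≤ q)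
    (hgp : ∀ e : Fin r ↪ Fin q, NZ A (D.dt e)) (j : Fin q) :
    InMov A (∑ j, ∑ b, D.δ j b) {x : Bp A K × (Fin r → K) | D.lv x j = 0} := by
  classical
  have hne : Nonempty (Fin r ↪ Fin q) :=
    Function.Embedding.nonempty_of_card_le (by simpa using hq)
  obtain ⟨e0⟩ := hne
  let k0 : Fin r := ⟨0, hr⟩
  let e : Fin r ↪ Fin q := e0.trans (Equiv.swap (e0 k0) j).toEmbedding
  have he : e k0 = j := by
    simp [e]
  obtain ⟨F, iF, iA, P, hP⟩ := hgp e
  have h1 : ∃ i, ev (D.a j i) (vc P) ≠ 0 := by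
    by_contra hcon
    push Not at hcon
    apply hP
    let φ : MvPolynomial (Fin β × Fin n) K →ₐ[K] F :=
      aeval (fun p : Fin β × Fin n => vc P p.1 p.2)
    have h2 : ev (D.dt e) (vc P) = (φ.mapMatrix (D.M e)).det := by
      rw [← AlgHom.map_det]
      rfl
    rw [h2]
    refine Matrix.det_eq_zero_of_row_eq_zero k0 (fun i => ?_)
    change ev (D.a (e k0) i) (vc P) = 0
    rw [he]
    exact hcon i
  obtain ⟨i, hi⟩ := h1
  refine ⟨D.a j, D.δ j, fun b => ?_, fun c => D.hom j c, ⟨i, F, iF, iA, P, hi⟩, fun x hx => ?_⟩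
  · exact (Finset.single_le_sum (f := fun b => D.δ j b) (fun _ _ => Nat.zero_le _)
        (Finset.mem_univ b)).trans
      (Finset.single_le_sum (f := fun j => ∑ b, D.δ j b) (fun _ _ => Nat.zero_le _)
        (Finset.mem_univ j))
  · have h2 : D.lv x j = 0 := hx
    rw [← h2]
    unfold Mvh.lv
    exact Finset.sum_congr rfl (fun c _ => mul_comm _ _)

/-- the exceptional pairs -/
def Exm (A : Fin β → AbV K n) (Γ : AddSubgroup (Bp A K)) (D : Mvh K n β r q)
    (S1 : Finset (InfinitePlace K)) (S2 : Finset (FinitePlace K)) (ε : ℝ) :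
    Set (Bp A K × (Fin r → K)) :=
  {x | x.1 ∈ Γ ∧ x.2 ≠ 0 ∧ ((∃ j, D.lv x j = 0) ∨
    r * logHeight x.2 + ε * hx x < sS S1 S2 (fun w => ∑ j, D.lam w x j))}

theorem dyadicM (A : Fin β → AbV K n) (hd : 0 < ∑ b, (A b).dim) (hTop : Top A)
    (Γ : AddSubgroup (Bp A K)) (hFG : Γ.FG) (D : Mvh K n β r q) (hr : 0 < r) (hq : r ≤ q)
    (hgp : ∀ e : Fin r ↪ Fin q, NZ A (D.dt e))
    (S1 : Finset (InfinitePlace K)) (S2 : Finset (FinitePlace K)) (ε : ℝ) (hε : 0 < ε) :
    ∃ N d : ℕ, ∀ T : ℝ, CovM A N d {x | x ∈ Exm A Γ D S1 S2 ε ∧ T / 2 ≤ hx x ∧ hx x ≤ T} := by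
  classical
  have hrR : (0 : ℝ) < r := by exact_mod_cast hr
  have hpl : ∀ w : AbsoluteValue K ℝ, InS S1 S2 w → IsPl w := by
    rintro w (⟨v, -, rfl⟩ | ⟨v, -, rfl⟩)
    · exact Or.inr ⟨v, rfl⟩
    · exact Or.inl ⟨v, rfl⟩
  set m : ℝ := sS S1 S2 (fun _ => 1) with hm
  have hm0 : 0 ≤ m := sS_nonneg (fun _ => zero_le_one)
  set M : ℝ := r + 2 * ε with hM
  have hM0 : 0 ≤ M := by positivity
  obtain ⟨d0, ρ, η0, hρ, hη0, hη0ε, hclu⟩ := cluM A hTop D hr S1 S2 (ε / 4) M (by positivity) hM0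
  set η : ℝ := min η0 (ε / (8 * (m * (q + r) + 1))) with hη
  have hηp : 0 < η := lt_min hη0 (by positivity)
  have hηη0 : η ≤ η0 := min_le_left _ _
  have hη8 : η * (m * (q + r)) ≤ ε / 8 := by
    have h1 : η ≤ ε / (8 * (m * (q + r) + 1)) := min_le_right _ _
    calc η * (m * (q + r)) ≤ ε / (8 * (m * (q + r) + 1)) * (m * (q + r) + 1) := by
          refine mul_le_mul h1 (by linarith) (by positivity) (by positivity)
      _ = ε / 8 := by field_simp
  obtain ⟨Cc, hCc⟩ := color A Γ hFG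
  obtain ⟨NP, hNP⟩ := hCc ρ hρ
  obtain ⟨T1, hT1⟩ := hclu Cc
  choose Cm hCm0 hCm using fun w => min_lam D A w
  choose Cl hCl0 hCl using fun w => lam_ge D A w
  set Cms : ℝ := sS S1 S2 Cm with hCms
  have hCms0 : 0 ≤ Cms := sS_nonneg hCm0
  set Cls : ℝ := sS S1 S2 Cl with hCls
  -- the bad points
  let PS := {v : InfinitePlace K // v ∈ S1} ⊕ {v : FinitePlace K // v ∈ S2}
  let ab : PS → AbsoluteValue K ℝ := Sum.elim (fun v => ai v.1) (fun v => av v.1)
  have hab : ∀ p, InS S1 S2 (ab p) := by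
    rintro (v | v)
    · exact Or.inl ⟨v.1, v.2, rfl⟩
    · exact Or.inr ⟨v.1, v.2, rfl⟩
  have hab2 : ∀ w, InS S1 S2 w → ∃ p, ab p = w := by
    rintro w (⟨v, hv, rfl⟩ | ⟨v, hv, rfl⟩)
    · exact ⟨Sum.inl ⟨v, hv⟩, rfl⟩
    · exact ⟨Sum.inr ⟨v, hv⟩, rfl⟩
  let XB : ℝ → Set (Bp A K × (Fin r → K)) := fun T =>
    ⋃ y ∈ (Finset.univ : Finset (PS × (Fin r ↪ Fin q))), {x | x.1 ∈ Γ ∧ ht x.1 ≤ T ∧
      ¬ (ev (D.dt y.2) (vc x.1) ≠ 0 ∧
        -Real.log (nvW (ab y.1) (D.dd y.2) (D.dt y.2) (vc x.1)) ≤ η * T)}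
  have hXB : UCM A XB := UCM.biUnion _ (fun y => ucm_bad A hTop Γ hFG D hr hgp (ab y.1)
    (hpl _ (hab _)) η hηp y.2)
  let XZ : ℝ → Set (Bp A K × (Fin r → K)) := fun _ =>
    ⋃ j ∈ (Finset.univ : Finset (Fin q)), {x | D.lv x j = 0}
  have hXZ : UCM A XZ := UCM.biUnion _ (fun j => ⟨1, ∑ j, ∑ b, D.δ j b, 0, fun T _ =>
    ⟨fun _ => {x | D.lv x j = 0}, fun _ => inMov_self A D hr hq hgp j, fun x hx =>
      Set.mem_iUnion.2 ⟨0, hx⟩⟩⟩)
  -- the remaining pairs
  let XG : ℝ → Set (Bp A K × (Fin r → K)) := fun T =>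
    {x | (x ∈ Exm A Γ D S1 S2 ε ∧ T / 2 ≤ hx x ∧ hx x ≤ T) ∧ x ∉ XB T ∧ x ∉ XZ T}
  have hXG : UCM A XG := by
    set M1 : ℕ := ⌊M / η⌋₊ with hM1
    set M2 : ℕ := ⌊1 / η⌋₊ with hM2
    have hM1a : (M1 : ℝ) * η ≤ M := by
      have h1 : (M1 : ℝ) ≤ M / η := Nat.floor_le (by positivity)
      rwa [le_div_iff₀ hηp] at h1
    have hM1b : M - η < (M1 : ℝ) * η := by
      have h1 : M / η < M1 + 1 := Nat.lt_floor_add_one _
      rw [div_lt_iff₀ hηp] at h1
      linarith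
    let CT := Fin NP × Fin (M2 + 1) × (PS → (Fin r ↪ Fin q) × (Fin r → Fin (M1 + 1)))
    refine ⟨Fintype.card CT, d0, max (max 1 T1) (max (Cls / η) (8 * (q * Cms) / ε)),
      fun T hT => ?_⟩
    have hTa : 1 ≤ T := ((le_max_left _ _).trans (le_max_left _ _)).trans hT
    have hTb : T1 ≤ T := ((le_max_right _ _).trans (le_max_left _ _)).trans hT
    have hTc : Cls / η ≤ T := ((le_max_left _ _).trans (le_max_right _ _)).trans hT
    have hTd : 8 * (q * Cms) / ε ≤ T := ((le_max_right _ _).trans (le_max_right _ _)).trans hT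
    have hT0 : 0 < T := one_pos.trans_le hTa
    rw [div_le_iff₀ hηp] at hTc
    rw [div_le_iff₀ hε] at hTd
    have hηT : 0 < η * T := mul_pos hηp hT0
    obtain ⟨colP, hcolP⟩ := hNP T hTa
    -- the choice of the systems
    have hex : ∀ (x : Bp A K × (Fin r → K)) (w : AbsoluteValue K ℝ), x ∈ XG T → InS S1 S2 w →
        ∃ e : Fin r ↪ Fin q, ∑ j, D.lam w x j ≤ ∑ k, D.lam w x (e k) +
          q * (η * T + Cm w) := by
      intro x w hxG hw
      obtain ⟨p, rfl⟩ := hab2 w hw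
      obtain ⟨⟨⟨hxΓ, hx0, -⟩, -, hxT⟩, hxB, hxZ⟩ := hxG
      refine choose_large hq (fun j => D.lam (ab p) x j) (η * T + Cm (ab p))
        (add_nonneg hηT.le (hCm0 _)) (fun e => ?_) hr
      have hnb : ev (D.dt e) (vc x.1) ≠ 0 ∧
          -Real.log (nvW (ab p) (D.dd e) (D.dt e) (vc x.1)) ≤ η * T := by
        by_contra hcon
        apply hxB
        refine Set.mem_biUnion (x := (p, e)) (Finset.mem_coe.2 (Finset.mem_univ _)) ?_
        refine ⟨hxΓ, ?_, hcon⟩
        have h1 : 0 ≤ logHeight x.2 := logHeight_nonneg _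
        have h2 : ht x.1 + logHeight x.2 ≤ T := hxT
        linarith
      obtain ⟨k, -, hk⟩ := hCm (ab p) e x hx0 hnb.1
      exact ⟨k, by linarith [hnb.2]⟩
    have hne : Nonempty (Fin r ↪ Fin q) :=
      Function.Embedding.nonempty_of_card_le (by simpa using hq)
    let es : (Bp A K × (Fin r → K)) → AbsoluteValue K ℝ → Fin r ↪ Fin q := fun x w =>
      if h : x ∈ XG T ∧ InS S1 S2 w then (hex x w h.1 h.2).choose else Classical.choice hne
    have hes : ∀ x ∈ XG T, ∀ w, InS S1 S2 w → ∑ j, D.lam w x j ≤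
        ∑ k, D.lam w x (es x w k) + q * (η * T + Cm w) := by
      intro x hx w hw
      have h : x ∈ XG T ∧ InS S1 S2 w := ⟨hx, hw⟩
      simp only [es]
      rw [dif_pos h]
      exact (hex x w h.1 h.2).choose_spec
    -- indices
    let ix : (Bp A K × (Fin r → K)) → AbsoluteValue K ℝ → Fin r → Fin (M1 + 1) := fun x w k =>
      ⟨min M1 ⌊max 0 (D.lam w x (es x w k)) / (η * T)⌋₊, by omega⟩
    let ih : (Bp A K × (Fin r → K)) → Fin (M2 + 1) := fun x =>
      ⟨min M2 ⌊logHeight x.2 / (η * T)⌋₊, by omega⟩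
    let col : (Bp A K × (Fin r → K)) → CT := fun x =>
      (colP x.1, ih x, fun p => (es x (ab p), ix x (ab p)))
    refine covM_of_col rfl col (fun c => ?_)
    -- one class
    rcases Set.eq_empty_or_nonempty {x | x ∈ XG T ∧ col x = c} with hem | ⟨x0, hx0⟩
    · rw [hem]
      refine ⟨fun _ => 1, fun _ => 0, fun _ => Nat.zero_le _, fun _ => MH_one, ⟨⟨0, hr⟩, K,
        inferInstance, inferInstance, 0, ?_⟩, fun x hx => absurd hx (Set.notMem_empty x)⟩
      simp [ev]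
    obtain ⟨hx0G, hx0c⟩ := hx0
    have hx0G' := hx0G
    obtain ⟨⟨⟨hx0Γ, hx00, hx0e⟩, hx0T1, hx0T2⟩, hx0B, hx0Z⟩ := hx0G'
    have hlh0 : 0 ≤ logHeight x0.2 := logHeight_nonneg _
    have hht0 : 0 ≤ ht x0.1 := ht_nonneg _
    have hx0T : ht x0.1 + logHeight x0.2 ≤ T := hx0T2
    -- floors
    have hfl : ∀ (x : Bp A K × (Fin r → K)) (w : AbsoluteValue K ℝ) (k : Fin r),
        ((ix x w k : ℕ) : ℝ) * (η * T) ≤ max 0 (D.lam w x (es x w k)) := by
      intro x w k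
      have h1 : ((ix x w k : ℕ) : ℝ) ≤ max 0 (D.lam w x (es x w k)) / (η * T) := by
        refine le_trans ?_ (Nat.floor_le (by positivity))
        exact_mod_cast min_le_right _ _
      rwa [le_div_iff₀ hηT] at h1
    have hH : ((ih x0 : ℕ) : ℝ) * (η * T) ≤ logHeight x0.2 := by
      have h1 : ((ih x0 : ℕ) : ℝ) ≤ logHeight x0.2 / (η * T) := by
        refine le_trans ?_ (Nat.floor_le (by positivity))
        exact_mod_cast min_le_right _ _
      rwa [le_div_iff₀ hηT] at h1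
    have hμ0 : ∀ (w : AbsoluteValue K ℝ) (k : Fin r), 0 ≤ ((ix x0 w k : ℕ) : ℝ) * (η * T) :=
      fun w k => by positivity
    have hμ1 : ∀ (w : AbsoluteValue K ℝ) (k : Fin r),
        ((ix x0 w k : ℕ) : ℝ) * (η * T) ≤ M * T := by
      intro w k
      have h1 : ((ix x0 w k : ℕ) : ℝ) ≤ M1 := by exact_mod_cast min_le_left _ _
      calc ((ix x0 w k : ℕ) : ℝ) * (η * T) ≤ M1 * (η * T) :=
            mul_le_mul_of_nonneg_right h1 hηT.le
        _ = M1 * η * T := by ring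
        _ ≤ M * T := mul_le_mul_of_nonneg_right hM1a hT0.le
    refine hT1 T hTb _ (((ih x0 : ℕ) : ℝ) * (η * T)) (es x0)
      (fun w k => ((ix x0 w k : ℕ) : ℝ) * (η * T)) (fun w k => ⟨hμ0 w k, hμ1 w k⟩) ?_ ?_ ?_ ?_
    · -- the sum of the `μ`
      have hHT : ((ih x0 : ℕ) : ℝ) * (η * T) ≤ T := by linarith
      by_cases hA : ∃ w, InS S1 S2 w ∧ ∃ k, M1 ≤ ⌊max 0 (D.lam w x0 (es x0 w k)) / (η * T)⌋₊
      · obtain ⟨w, hw, k, hk⟩ := hA
        have h1 : ((ix x0 w k : ℕ) : ℝ) = M1 := by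
          have h2 : (ix x0 w k : ℕ) = M1 := min_eq_left hk
          rw [h2]
        have h2 : (M - η) * T ≤ ((ix x0 w k : ℕ) : ℝ) * (η * T) := by
          rw [h1]
          calc (M - η) * T ≤ (M1 * η) * T := mul_le_mul_of_nonneg_right hM1b.le hT0.le
            _ = _ := by ring
        have h3 : ((ix x0 w k : ℕ) : ℝ) * (η * T) ≤
            ∑ k, ((ix x0 w k : ℕ) : ℝ) * (η * T) :=
          Finset.single_le_sum (f := fun k => ((ix x0 w k : ℕ) : ℝ) * (η * T))
            (fun k _ => hμ0 w k) (Finset.mem_univ k)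
        have h4 := le_sS (S1 := S1) (S2 := S2)
          (g := fun w => ∑ k, ((ix x0 w k : ℕ) : ℝ) * (η * T))
          (fun w => Finset.sum_nonneg (fun k _ => hμ0 w k)) hw
        have h5 : (r : ℝ) * (((ih x0 : ℕ) : ℝ) * (η * T)) ≤ r * T :=
          mul_le_mul_of_nonneg_left hHT hrR.le
        have h6 : η ≤ ε / 4 := hηη0.trans hη0ε
        have h7 : (r : ℝ) * T + ε / 4 * T ≤ (M - η) * T := by
          rw [hM]
          nlinarith
        linarith
      · push Not at hA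
        have h1 : ∀ w, InS S1 S2 w → ∑ j, D.lam w x0 j + ((-(q + r : ℝ)) * (η * T) +
            (-(q : ℝ)) * Cm w) ≤ ∑ k, ((ix x0 w k : ℕ) : ℝ) * (η * T) := by
          intro w hw
          have h2 : ∀ k, D.lam w x0 (es x0 w k) - η * T ≤ ((ix x0 w k : ℕ) : ℝ) * (η * T) := by
            intro k
            have h3 := hA w hw k
            have h4 : (ix x0 w k : ℕ) = ⌊max 0 (D.lam w x0 (es x0 w k)) / (η * T)⌋₊ :=
              min_eq_right h3.le
            have h5 := Nat.lt_floor_add_one (max 0 (D.lam w x0 (es x0 w k)) / (η * T))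
            rw [← h4, div_lt_iff₀ hηT] at h5
            have h6 := le_max_right 0 (D.lam w x0 (es x0 w k))
            linarith
          have h3 := Finset.sum_le_sum (fun k (_ : k ∈ Finset.univ) => h2 k)
          rw [Finset.sum_sub_distrib, Finset.sum_const, Finset.card_univ, Fintype.card_fin,
            nsmul_eq_mul] at h3
          have h4 := hes x0 hx0G w hw
          linarith
        have h2 := sS_mono (S1 := S1) (S2 := S2) h1
        rw [sS_add, sS_add, sS_const, sS_mul, ← hm, ← hCms] at h2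
        rcases hx0e with ⟨j, hj⟩ | hx0e
        · exfalso
          apply hx0Z
          exact Set.mem_biUnion (x := j) (Finset.mem_coe.2 (Finset.mem_univ _)) hj
        have h3 : (r : ℝ) * (((ih x0 : ℕ) : ℝ) * (η * T)) ≤ r * logHeight x0.2 :=
          mul_le_mul_of_nonneg_left hH hrR.le
        have h4 : ε * (T / 2) ≤ ε * hx x0 := mul_le_mul_of_nonneg_left hx0T1 hε.le
        have h5 : η * (m * (q + r)) * T ≤ ε / 8 * T := mul_le_mul_of_nonneg_right hη8 hT0.le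
        have h6 : (q : ℝ) * Cms ≤ ε / 8 * T := by linarith
        have h7 : -((q : ℝ) + r) * (η * T) * m = -(η * (m * (q + r)) * T) := by ring
        rw [h7] at h2
        linarith
    · rintro x ⟨hxG, hxc⟩
      have hxG' := hxG
      obtain ⟨⟨⟨hxΓ, hxn, -⟩, -, hxT2⟩, -, -⟩ := hxG'
      have hxT : ht x.1 + logHeight x.2 ≤ T := hxT2
      have h1 : 0 ≤ logHeight x.2 := logHeight_nonneg _
      have h2 : 0 ≤ ht x.1 := ht_nonneg _
      refine ⟨hxn, by linarith, ?_⟩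
      have h3 : ih x = ih x0 := by
        have h4 := congrArg (fun c : CT => c.2.1) (hxc.trans hx0c.symm)
        exact h4
      rw [← h3]
      have h4 : ⌊logHeight x.2 / (η * T)⌋₊ ≤ M2 := by
        refine Nat.floor_le_floor ?_
        rw [div_le_div_iff₀ hηT hηp]
        nlinarith
      have h5 : (ih x : ℕ) = ⌊logHeight x.2 / (η * T)⌋₊ := min_eq_right h4
      have h6 := Nat.lt_floor_add_one (logHeight x.2 / (η * T))
      rw [← h5, div_lt_iff₀ hηT] at h6
      have h7 : η * T ≤ η0 * T := mul_le_mul_of_nonneg_right hηη0 hT0.le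
      linarith
    · rintro x ⟨hxG, hxc⟩ y ⟨hyG, hyc⟩
      have hxT : ht x.1 + logHeight x.2 ≤ T := hxG.1.2.2
      have hyT : ht y.1 + logHeight y.2 ≤ T := hyG.1.2.2
      have h1 : 0 ≤ logHeight x.2 := logHeight_nonneg _
      have h2 : 0 ≤ logHeight y.2 := logHeight_nonneg _
      refine hcolP x.1 hxG.1.1.1 y.1 hyG.1.1.1 (by linarith) (by linarith) ?_
      have h4 := congrArg (fun c : CT => c.1) (hxc.trans hyc.symm)
      exact h4
    · rintro x ⟨hxG, hxc⟩ w hw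
      obtain ⟨p, rfl⟩ := hab2 w hw
      have h1 : es x (ab p) = es x0 (ab p) ∧ ix x (ab p) = ix x0 (ab p) := by
        have h4 := congrArg (fun c : CT => c.2.2 p) (hxc.trans hx0c.symm)
        exact Prod.ext_iff.1 h4
      have hxn : x.2 ≠ 0 := hxG.1.1.2.1
      have hηT0 : η * T ≤ η0 * T := mul_le_mul_of_nonneg_right hηη0 hT0.le
      refine ⟨fun k => ?_, ?_⟩
      · have h2 : D.lv x (es x0 (ab p) k) ≠ 0 := by
          intro h3
          apply hxG.2.2
          exact Set.mem_biUnion (x := es x0 (ab p) k) (Finset.mem_coe.2 (Finset.mem_univ _)) h3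
        refine ⟨h2, ?_⟩
        have h3 := hfl x (ab p) k
        rw [h1.1, h1.2] at h3
        rcases le_total 0 (D.lam (ab p) x (es x0 (ab p) k)) with h4 | h4
        · rw [max_eq_right h4] at h3
          have h5 : 0 < η0 * T := mul_pos hη0 hT0
          linarith
        · rw [max_eq_left h4] at h3
          have h5 := hCl (ab p) x (es x0 (ab p) k) hxn h2
          have h6 : Cl (ab p) ≤ Cls := le_sS hCl0 hw
          linarith
      · have hnb : ev (D.dt (es x0 (ab p))) (vc x.1) ≠ 0 ∧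
            -Real.log (nvW (ab p) (D.dd (es x0 (ab p))) (D.dt (es x0 (ab p))) (vc x.1)) ≤
              η * T := by
          by_contra hcon
          apply hxG.2.1
          refine Set.mem_biUnion (x := (p, es x0 (ab p))) (Finset.mem_coe.2 (Finset.mem_univ _))
            ?_
          refine ⟨hxG.1.1.1, ?_, hcon⟩
          have h1 : 0 ≤ logHeight x.2 := logHeight_nonneg _
          have h2 : ht x.1 + logHeight x.2 ≤ T := hxG.1.2.2
          linarith
        exact ⟨hnb.1, hnb.2.trans hηT0⟩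
  obtain ⟨N, d, T2, hT2⟩ := (hXG.union (hXB.union hXZ))
  obtain ⟨c1, c2, T0, hc1, hT0, hcnt⟩ := cnt K n β A Γ hFG
  set T3 : ℝ := max T2 T0 with hT3
  have hfin : {P | P ∈ Γ ∧ ht P ≤ T3}.Finite := (hcnt T3 (le_max_right _ _)).1
  obtain ⟨N', hN'⟩ := cov_finite hd hfin
  have hN'' : CovM A N' 1 {x : Bp A K × (Fin r → K) | x.1 ∈ {P | P ∈ Γ ∧ ht P ≤ T3}} :=
    covM_of_cov hr hN'
  refine ⟨N + N', max d 1, fun T => ?_⟩
  by_cases hT : T3 ≤ T
  · refine ((hT2 T ((le_max_left _ _).trans hT)).union hN'').sub ?_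
    rintro x hx
    left
    by_cases h1 : x ∈ XB T
    · exact Or.inr (Or.inl h1)
    by_cases h2 : x ∈ XZ T
    · exact Or.inr (Or.inr h2)
    exact Or.inl ⟨hx, h1, h2⟩
  · push Not at hT
    have h5 : CovM A N d (∅ : Set (Bp A K × (Fin r → K))) :=
      (hT2 T2 le_rfl).sub (Set.empty_subset _)
    refine (h5.union hN'').sub ?_
    rintro x ⟨⟨h1, -⟩, -, h2⟩
    refine Or.inr ⟨h1, ?_⟩
    have h3 : 0 ≤ logHeight x.2 := logHeight_nonneg _
    have h4 : ht x.1 + logHeight x.2 ≤ T := h2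
    linarith

end main

section log

variable {K : Type} [Field K] [NumberField K] {n β r : ℕ} {A : Fin β → AbV K n}

lemma pow_covM {X : Set (Bp A K × (Fin r → K))} {N0 N d0 d : ℕ}
    (h0 : CovM A N0 d0 {x | x ∈ X ∧ hx x ≤ 1})
    (h : ∀ T : ℝ, CovM A N d {x | x ∈ X ∧ T / 2 ≤ hx x ∧ hx x ≤ T}) (k : ℕ) :
    CovM A (N0 + N * k) (max d0 d) {x | x ∈ X ∧ hx x ≤ 2 ^ k} := by
  induction k with
  | zero =>
    have h1 := h0.monod (le_max_left d0 d)
    simpa using h1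
  | succ k ih =>
    have h1 := ih.union ((h (2 ^ (k + 1))).monod (le_max_right d0 d))
    rw [max_self] at h1
    have h2 : N0 + N * k + N = N0 + N * (k + 1) := by ring
    rw [h2] at h1
    refine h1.sub ?_
    rintro x ⟨hx1, hx2⟩
    rcases le_total (hx x) (2 ^ k) with h3 | h3
    · exact Or.inl ⟨hx1, h3⟩
    · refine Or.inr ⟨hx1, ?_, hx2⟩
      rw [pow_succ]
      linarith

lemma log_covM {X : Set (Bp A K × (Fin r → K))} {N0 N d0 d : ℕ}
    (h0 : CovM A N0 d0 {x | x ∈ X ∧ hx x ≤ 1})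
    (h : ∀ T : ℝ, CovM A N d {x | x ∈ X ∧ T / 2 ≤ hx x ∧ hx x ≤ T}) :
    ∃ (C : ℝ) (d' : ℕ), ∀ T : ℝ, 2 ≤ T → ∃ M : ℕ, (M : ℝ) ≤ C * Real.log T ∧
      CovM A M d' {x | x ∈ X ∧ hx x ≤ T} := by
  have hl2 : 0 < Real.log 2 := Real.log_pos (by norm_num)
  refine ⟨(N0 + 2 * N) / Real.log 2, max d0 d, fun T hT => ?_⟩
  have hlT : Real.log 2 ≤ Real.log T := Real.log_le_log (by norm_num) hT
  set k : ℕ := ⌈Real.log T / Real.log 2⌉₊ with hk
  have hk1 : Real.log T / Real.log 2 ≤ k := Nat.le_ceil _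
  have hk2 : (k : ℝ) < Real.log T / Real.log 2 + 1 :=
    Nat.ceil_lt_add_one (div_nonneg (hl2.le.trans hlT) hl2.le)
  have h1 : 1 ≤ Real.log T / Real.log 2 := by
    rw [le_div_iff₀ hl2, one_mul]
    exact hlT
  refine ⟨N0 + N * k, ?_, (pow_covM h0 h k).sub ?_⟩
  · push_cast
    have h2 : (N0 + 2 * N) / Real.log 2 * Real.log T =
        (N0 + 2 * N) * (Real.log T / Real.log 2) := by ring
    rw [h2]
    have h3 : (0 : ℝ) ≤ N0 := Nat.cast_nonneg _
    have h4 : (0 : ℝ) ≤ N := Nat.cast_nonneg _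
    nlinarith
  · rintro x ⟨hx1, hx2⟩
    refine ⟨hx1, hx2.trans ?_⟩
    rw [div_le_iff₀ hl2] at hk1
    have h5 : Real.log T ≤ Real.log (2 ^ k) := by
      rw [Real.log_pow]
      exact hk1
    exact (Real.log_le_log_iff (by linarith) (by positivity)).1 h5

end log

end Pool.Agent.J4H27.MV
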