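import Pool.Agent.J4H27.MV.Clm
import Pool.Agent.J4H27.AB.Log

/-!
# Coverings by moving hyperplanes
-/

set_option autoImplicit false
set_option linter.unusedSectionVars false

open MvPolynomial Pool.Agent.TH954.X Pool.Agent.TH954.V Pool.Agent.TH954.Z
  Pool.Agent.TH954.Y Pool.Agent.J4H27.AB NumberField Height

namespace Pool.Agent.J4H27.MV

section cov

variable {K : Type} [Field K] {n β r : ℕ} {A : Fin β → AbV K n}

/-- the set `S` is covered by `N` moving hyperplanes of multidegree at most `d` -/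
def CovM (A : Fin β → AbV K n) {r : ℕ} (N d : ℕ) (S : Set (Bp A K × (Fin r → K))) : Prop :=
  ∃ H : Fin N → Set (Bp A K × (Fin r → K)), (∀ i, InMov A d (H i)) ∧ S ⊆ ⋃ i, H i

lemma CovM.sub {N d : ℕ} {S S' : Set (Bp A K × (Fin r → K))} (h : CovM A N d S) (hS : S' ⊆ S) :
    CovM A N d S' := by
  obtain ⟨H, h1, h2⟩ := h
  exact ⟨H, h1, hS.trans h2⟩

lemma CovM.monod {N d d' : ℕ} {S : Set (Bp A K × (Fin r → K))} (h : CovM A N d S)
    (hd : d ≤ d') : CovM A N d' S := by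
  obtain ⟨H, h1, h2⟩ := h
  exact ⟨H, fun i => (h1 i).mono hd, h2⟩

lemma CovM.union {N1 N2 d1 d2 : ℕ} {S1 S2 : Set (Bp A K × (Fin r → K))} (h1 : CovM A N1 d1 S1)
    (h2 : CovM A N2 d2 S2) : CovM A (N1 + N2) (max d1 d2) (S1 ∪ S2) := by
  obtain ⟨H1, h11, h12⟩ := h1
  obtain ⟨H2, h21, h22⟩ := h2
  refine ⟨Fin.append H1 H2, fun i => ?_, ?_⟩
  · refine Fin.addCases (fun i => ?_) (fun i => ?_) i
    · rw [Fin.append_left]
      exact (h11 i).mono (le_max_left _ _)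
    · rw [Fin.append_right]
      exact (h21 i).mono (le_max_right _ _)
  · rintro x (hx | hx)
    · obtain ⟨i, hi⟩ := Set.mem_iUnion.1 (h12 hx)
      exact Set.mem_iUnion.2 ⟨Fin.castAdd N2 i, by rwa [Fin.append_left]⟩
    · obtain ⟨i, hi⟩ := Set.mem_iUnion.1 (h22 hx)
      exact Set.mem_iUnion.2 ⟨Fin.natAdd N1 i, by rwa [Fin.append_right]⟩

lemma covM_empty (A : Fin β → AbV K n) (d : ℕ) : CovM A 0 d (∅ : Set (Bp A K × (Fin r → K))) :=
  ⟨fun i => i.elim0, fun i => i.elim0, Set.empty_subset _⟩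

lemma covM_of_cov (hr : 0 < r) {N d : ℕ} {S : Set (Bp A K)} (h : Cov A N d S) :
    CovM A N d {x : Bp A K × (Fin r → K) | x.1 ∈ S} := by
  obtain ⟨H, h1, h2⟩ := h
  refine ⟨fun i => {x | x.1 ∈ H i}, fun i => ?_, ?_⟩
  · obtain ⟨Φ, τ, h3, h4, h5, h6⟩ := h1 i
    refine ⟨fun _ => Φ, τ, h3, fun _ => h4, ⟨⟨0, hr⟩, h5⟩, fun x hx => ?_⟩
    refine Finset.sum_eq_zero (fun c _ => ?_)
    change x.2 c * ev Φ (vc x.1) = 0
    rw [h6 x.1 hx, mul_zero]
  · intro x hx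
    obtain ⟨i, hi⟩ := Set.mem_iUnion.1 (h2 hx)
    exact Set.mem_iUnion.2 ⟨i, hi⟩

lemma covM_of_col {N d : ℕ} {S : Set (Bp A K × (Fin r → K))} {CT : Type} [Fintype CT]
    (hN : Fintype.card CT = N) (col : Bp A K × (Fin r → K) → CT)
    (h : ∀ c, InMov A d {x | x ∈ S ∧ col x = c}) : CovM A N d S := by
  subst hN
  let eq := Fintype.equivFin CT
  refine ⟨fun c => {x | x ∈ S ∧ col x = eq.symm c}, fun c => h _, fun x hx => ?_⟩
  exact Set.mem_iUnion.2 ⟨eq (col x), hx, by simp⟩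

/-- uniform coverings, for large `T` -/
def UCM (A : Fin β → AbV K n) {r : ℕ} (X : ℝ → Set (Bp A K × (Fin r → K))) : Prop :=
  ∃ (N d : ℕ) (T0 : ℝ), ∀ T, T0 ≤ T → CovM A N d (X T)

lemma UCM.union {X Y : ℝ → Set (Bp A K × (Fin r → K))} (hX : UCM A X) (hY : UCM A Y) :
    UCM A (fun T => X T ∪ Y T) := by
  obtain ⟨N1, d1, T1, h1⟩ := hX
  obtain ⟨N2, d2, T2, h2⟩ := hY
  exact ⟨N1 + N2, max d1 d2, max T1 T2, fun T hT => (h1 T ((le_max_left _ _).trans hT)).union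
    (h2 T ((le_max_right _ _).trans hT))⟩

lemma UCM.biUnion {ι : Type} (s : Finset ι) {X : ι → ℝ → Set (Bp A K × (Fin r → K))}
    (hX : ∀ i, UCM A (X i)) : UCM A (fun T => ⋃ i ∈ s, X i T) := by
  classical
  induction s using Finset.induction_on with
  | empty =>
    refine ⟨0, 0, 0, fun T _ => ?_⟩
    have : (⋃ i ∈ (∅ : Finset ι), X i T) = ∅ := by simp
    exact (covM_empty A 0).sub this.subset
  | insert a s ha ih =>
    have h1 : (fun T => ⋃ i ∈ insert a s, X i T) = fun T => X a T ∪ ⋃ i ∈ s, X i T := by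
      funext T
      exact Finset.set_biUnion_insert a s (fun i => X i T)
    rw [h1]
    exact (hX a).union ih

lemma UCM.sub {X Y : ℝ → Set (Bp A K × (Fin r → K))} (hX : UCM A X) {T1 : ℝ}
    (h : ∀ T, T1 ≤ T → Y T ⊆ X T) : UCM A Y := by
  obtain ⟨N, d, T0, h1⟩ := hX
  exact ⟨N, d, max T0 T1, fun T hT => (h1 T ((le_max_left _ _).trans hT)).sub
    (h T ((le_max_right _ _).trans hT))⟩

end cov

section lem

variable {K : Type} [Field K] {n β r q : ℕ} (D : Mvh K n β r q)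

/-- the local heights are bounded below -/
lemma lam_ge (A : Fin β → AbV K n) (w : AbsoluteValue K ℝ) :
    ∃ C : ℝ, 0 ≤ C ∧ ∀ (x : Bp A K × (Fin r → K)) (j : Fin q), x.2 ≠ 0 → D.lv x j ≠ 0 →
      -C ≤ D.lam w x j := by
  classical
  choose A1 M1 hM1 hA1 using fun p : Fin q × Fin r => nvW_le_kap (D.a p.1 p.2) (D.δ p.1)
    (D.hom p.1 p.2)
  have hk : ∀ p, 0 ≤ kap (A1 p) (M1 p) 1 w := fun p =>
    (zero_lt_one.trans_le (one_le_kap _ (hM1 p) _ _)).le
  set R : ℝ := 1 + ∑ p : Fin q × Fin r, kap (A1 p) (M1 p) 1 w with hR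
  have hR1 : 1 ≤ R := by
    have := Finset.sum_nonneg (fun p (_ : p ∈ Finset.univ) => hk p)
    linarith
  refine ⟨Real.log R, Real.log_nonneg hR1, fun x j hx hj => ?_⟩
  have hden := D.den_pos w hx j
  have hv : ∀ b, vc x.1 b ≠ 0 := fun b => vcn x.1 b
  set N1 : ℝ := ∏ b, (⨆ c, w (vc x.1 b c)) ^ D.δ j b with hN1
  have hN10 : 0 < N1 := Finset.prod_pos (fun b _ => pow_pos (sup_posW w (hv b)) _)
  have h1 : w (D.lv x j) ≤ R * ((⨆ c, w (x.2 c)) * N1) := by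
    unfold Mvh.lv
    refine (IsAbsoluteValue.abv_sum w _ _).trans ?_
    have h2 : ∀ i : Fin r, w (ev (D.a j i) (vc x.1) * x.2 i) ≤
        kap (A1 (j, i)) (M1 (j, i)) 1 w * ((⨆ c, w (x.2 c)) * N1) := by
      intro i
      rw [map_mul]
      have h3 : w (ev (D.a j i) (vc x.1)) ≤ kap (A1 (j, i)) (M1 (j, i)) 1 w * N1 :=
        le_of_nvW hv (hA1 (j, i) w _ hv)
      have h4 : w (x.2 i) ≤ ⨆ c, w (x.2 c) :=
        le_ciSup (f := fun c => w (x.2 c)) (Set.finite_range _).bddAbove i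
      calc w (ev (D.a j i) (vc x.1)) * w (x.2 i) ≤
            (kap (A1 (j, i)) (M1 (j, i)) 1 w * N1) * (⨆ c, w (x.2 c)) :=
            mul_le_mul h3 h4 (apply_nonneg w _) (mul_nonneg (hk _) hN10.le)
        _ = _ := by ring
    refine (Finset.sum_le_sum (fun i _ => h2 i)).trans ?_
    rw [← Finset.sum_mul]
    refine mul_le_mul_of_nonneg_right ?_ hden.le
    have h5 : ∑ i : Fin r, kap (A1 (j, i)) (M1 (j, i)) 1 w ≤
        ∑ p : Fin q × Fin r, kap (A1 p) (M1 p) 1 w := by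
      rw [Fintype.sum_prod_type]
      exact Finset.single_le_sum (f := fun j => ∑ i : Fin r, kap (A1 (j, i)) (M1 (j, i)) 1 w)
        (fun j _ => Finset.sum_nonneg (fun i _ => hk _)) (Finset.mem_univ j)
    linarith
  unfold Mvh.lam
  have h2 : w (D.lv x j) / ((⨆ c, w (x.2 c)) * N1) ≤ R := by
    rw [div_le_iff₀ hden]
    exact h1
  have h3 := Real.log_le_log (div_pos (w.pos hj) hden) h2
  linarith

/-- one of the `r` local heights is at most the local height of the determinant -/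
lemma min_lam (A : Fin β → AbV K n) (w : AbsoluteValue K ℝ) :
    ∃ C : ℝ, 0 ≤ C ∧ ∀ (e : Fin r ↪ Fin q) (x : Bp A K × (Fin r → K)), x.2 ≠ 0 →
      ev (D.dt e) (vc x.1) ≠ 0 → ∃ k, D.lv x (e k) ≠ 0 ∧
        D.lam w x (e k) ≤ -Real.log (nvW w (D.dd e) (D.dt e) (vc x.1)) + C := by
  classical
  choose A1 M1 hM1 hA1 using fun p : (Fin r ↪ Fin q) × Fin r × Fin r =>
    nvW_le_kap (D.ad p.1 p.2.1 p.2.2) _ (D.ad_hom p.1 p.2.1 p.2.2)
  have hk : ∀ p, 0 ≤ kap (A1 p) (M1 p) 1 w := fun p =>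
    (zero_lt_one.trans_le (one_le_kap _ (hM1 p) _ _)).le
  set R : ℝ := 1 + ∑ p, kap (A1 p) (M1 p) 1 w with hR
  have hR1 : 1 ≤ R := by
    have := Finset.sum_nonneg (fun p (_ : p ∈ Finset.univ) => hk p)
    linarith
  have hRp : ∀ p, kap (A1 p) (M1 p) 1 w ≤ R := by
    intro p
    have := Finset.single_le_sum (f := fun p => kap (A1 p) (M1 p) 1 w)
      (fun p _ => hk p) (Finset.mem_univ p)
    linarith
  have hrR1 : (1 : ℝ) ≤ (r + 1) * R := by
    have h0 : (0 : ℝ) ≤ r := Nat.cast_nonneg _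
    nlinarith
  refine ⟨Real.log ((r + 1) * R), Real.log_nonneg hrR1, fun e x hx hdt => ?_⟩
  have hv : ∀ b, vc x.1 b ≠ 0 := fun b => vcn x.1 b
  have hvp : ∀ b, 0 < ⨆ c, w (vc x.1 b c) := fun b => sup_posW w (hv b)
  have hne : Nonempty (Fin r) := by
    obtain ⟨c, -⟩ := Function.ne_iff.mp hx
    exact ⟨c⟩
  obtain ⟨i, hi⟩ := exists_eq_ciSup_of_finite (f := fun c => w (x.2 c))
  have hi0 : 0 < w (x.2 i) := by
    rw [hi]
    exact sup_posR w hx
  set N3 : ℝ := ∏ b, (⨆ c, w (vc x.1 b c)) ^ D.dd e b with hN3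
  have hN30 : 0 < N3 := Finset.prod_pos (fun b _ => pow_pos (hvp b) _)
  by_contra hcon
  push Not at hcon
  set Λ : ℝ := -Real.log (nvW w (D.dd e) (D.dt e) (vc x.1)) + Real.log ((r + 1) * R) with hΛ
  have hnv : 0 < nvW w (D.dd e) (D.dt e) (vc x.1) := nvW_pos w _ _ hv hdt
  have hexp : Real.exp (-Λ) = nvW w (D.dd e) (D.dt e) (vc x.1) / ((r + 1) * R) := by
    rw [hΛ, neg_add, neg_neg, Real.exp_add, Real.exp_log hnv, Real.exp_neg,
      Real.exp_log (by linarith)]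
    rfl
  have hexp0 : 0 < Real.exp (-Λ) := Real.exp_pos _
  have hterm : ∀ k, w (ev (D.ad e i k) (vc x.1) * D.lv x (e k)) ≤
      R * (Real.exp (-Λ) * (w (x.2 i) * N3)) := by
    intro k
    by_cases h0 : D.lv x (e k) = 0
    · rw [h0, mul_zero, map_zero]
      positivity
    have h1 := D.le_of_lam w hx h0 (hcon k h0).le
    have h2 : w (ev (D.ad e i k) (vc x.1)) ≤ kap (A1 (e, i, k)) (M1 (e, i, k)) 1 w *
        ∏ b, (⨆ c, w (vc x.1 b c)) ^ dA (fun k' => D.δ (e k')) k b :=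
      le_of_nvW hv (hA1 (e, i, k) w _ hv)
    rw [← hi] at h1
    have h3 : (∏ b, (⨆ c, w (vc x.1 b c)) ^ dA (fun k' => D.δ (e k')) k b) *
        ∏ b, (⨆ c, w (vc x.1 b c)) ^ D.δ (e k) b = N3 := by
      rw [← Finset.prod_mul_distrib]
      refine Finset.prod_congr rfl (fun b _ => ?_)
      rw [← pow_add, dA_add]
      rfl
    have h4 : 0 < ∏ b, (⨆ c, w (vc x.1 b c)) ^ dA (fun k' => D.δ (e k')) k b :=
      Finset.prod_pos (fun b _ => pow_pos (hvp b) _)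
    rw [map_mul]
    calc w (ev (D.ad e i k) (vc x.1)) * w (D.lv x (e k)) ≤
          (R * ∏ b, (⨆ c, w (vc x.1 b c)) ^ dA (fun k' => D.δ (e k')) k b) *
          (Real.exp (-Λ) * (w (x.2 i) * ∏ b, (⨆ c, w (vc x.1 b c)) ^ D.δ (e k) b)) := by
          refine mul_le_mul (h2.trans ?_) h1 (apply_nonneg w _) (by positivity)
          exact mul_le_mul_of_nonneg_right (hRp _) h4.le
      _ = _ := by
          rw [← h3]
          ring
  have h1 := D.cramer e x i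
  have h2 : w (ev (D.dt e) (vc x.1) * x.2 i) ≤ r * (R * (Real.exp (-Λ) * (w (x.2 i) * N3))) := by
    rw [h1]
    refine (IsAbsoluteValue.abv_sum w _ _).trans ?_
    refine (Finset.sum_le_sum (fun k _ => hterm k)).trans (le_of_eq ?_)
    rw [Finset.sum_const, Finset.card_univ, Fintype.card_fin, nsmul_eq_mul]
  rw [map_mul, hexp] at h2
  have h3 : w (ev (D.dt e) (vc x.1)) = nvW w (D.dd e) (D.dt e) (vc x.1) * N3 := by
    unfold nvW
    rw [div_mul_cancel₀ _ hN30.ne']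
  rw [h3] at h2
  have h4 : (r : ℝ) * (R * (nvW w (D.dd e) (D.dt e) (vc x.1) / ((r + 1) * R) *
      (w (x.2 i) * N3))) = (r / (r + 1)) *
        (nvW w (D.dd e) (D.dt e) (vc x.1) * N3 * w (x.2 i)) := by
    field_simp
  rw [h4] at h2
  have h5 : 0 < nvW w (D.dd e) (D.dt e) (vc x.1) * N3 * w (x.2 i) := by positivity
  have h6 : (r : ℝ) / (r + 1) < 1 := by
    rw [div_lt_one (by positivity)]
    linarith
  nlinarith

end lem

end Pool.Agent.J4H27.MV
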