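import Pool.Agent.J4H27.AB.Clu
import Pool.Agent.J4H27.MV.Cmb

/-!
# Forms in the sums `P + Q l`
-/

set_option autoImplicit false
set_option linter.unusedSectionVars false

open MvPolynomial Pool.Agent.TH954.X Pool.Agent.TH954.V Pool.Agent.TH954.Z
  Pool.Agent.J4H27.AB

namespace Pool.Agent.J4H27.MV

section forms

variable {K : Type} [Field K] {n β : ℕ} (A : Fin β → AbV K n)

/-- the forms for the sum of `y` and `Q l`, with columns `c0` -/
noncomputable def Ca {L : ℕ} (l : Fin L) (c0 : Fin β → Fin n) :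
    Fin β → Fin n → MvPolynomial (Gr L β × Fin n) K :=
  fun b c => Dns.pull (pr l b) ((A b).Λ c (c0 b))

/-- the multidegree of a form in the sum -/
def dC {L : ℕ} (l : Fin L) (η : Fin β → ℕ) : Gr L β → ℕ :=
  Sum.elim (fun p => if p.1 = l then 2 * η p.2 else 0) (fun b => 2 * η b)

lemma MH_cmpCa {L : ℕ} (l : Fin L) (c0 : Fin β → Fin n) {f : MvPolynomial (Fin β × Fin n) K}
    {η : Fin β → ℕ} (hf : MH η f) : MH (dC l η) (cmp f (Ca A l c0)) := by
  classical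
  have h := MH_cmp hf (Ca A l c0)
    (fun b l' => ∑ x : Fin 2, 2 * if pr l b x = l' then 1 else 0)
    (fun b c => MH_pull' (pr l b) ((A b).Λ_hom c (c0 b)))
  convert h using 1
  funext l'
  unfold dC
  simp only [Fin.sum_univ_two, pr, Matrix.cons_val_zero, Matrix.cons_val_one]
  rcases l' with p | b
  · simp only [Sum.elim_inl, Sum.inl.injEq, reduceCtorEq, if_false, mul_zero, zero_add]
    by_cases hp : p.1 = l
    · rw [if_pos hp, Finset.sum_eq_single p.2]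
      · rw [if_pos (by rw [← hp])]
        ring
      · intro b _ hb
        rw [if_neg (fun h => hb (by rw [← h]))]
        ring
      · simp
    · rw [if_neg hp]
      symm
      refine Finset.sum_eq_zero (fun b _ => ?_)
      rw [if_neg (fun h => hp (by rw [← h]))]
      ring
  · simp only [Sum.elim_inr, Sum.inr.injEq, reduceCtorEq, if_false, mul_zero, add_zero]
    rw [Finset.sum_eq_single b]
    · rw [if_pos rfl]
      ring
    · intro b' _ hb'
      rw [if_neg hb']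
      ring
    · simp

lemma ev_Ca {L : ℕ} (l : Fin L) {F : Type} [Field F] [Algebra K F] (Q : Fin L → Bp A F)
    (P : Bp A F) : ∃ s : Fin β → F, (∀ b, s b ≠ 0) ∧ ∀ (c0 : Fin β → Fin n) (b : Fin β)
      (c : Fin n), ev (Ca A l c0 b c) (vcS Q P) =
        (s b * ((P - Q l) b).1 (c0 b)) * vc (P + Q l) b c := by
  choose s hs h using fun b => (A b).Λ_spec F (P b) (Q l b)
  refine ⟨s, hs, fun c0 b c => ?_⟩
  unfold Ca
  rw [Dns.ev_pull]
  have h1 : (fun x => vcS Q P (pr l b x)) = ![(P b).1, (Q l b).1] := by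
    funext x
    fin_cases x <;> rfl
  rw [h1, h b c (c0 b)]
  have h2 : ((A b).grp F).add (P b) (Q l b) = (P + Q l) b := rfl
  have h3 : ((A b).grp F).sub (P b) (Q l b) = (P - Q l) b := rfl
  rw [h2, h3]
  unfold vc
  ring

lemma ev_cmpCa {L : ℕ} (l : Fin L) {F : Type} [Field F] [Algebra K F] (Q : Fin L → Bp A F)
    (P : Bp A F) : ∃ s : Fin β → F, (∀ b, s b ≠ 0) ∧ ∀ (c0 : Fin β → Fin n)
      (f : MvPolynomial (Fin β × Fin n) K) (η : Fin β → ℕ), MH η f →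
      ev (cmp f (Ca A l c0)) (vcS Q P) =
        (∏ b, (s b * ((P - Q l) b).1 (c0 b)) ^ η b) * ev f (vc (P + Q l)) := by
  obtain ⟨s, hs, h⟩ := ev_Ca A l Q P
  refine ⟨s, hs, fun c0 f η hf => ?_⟩
  rw [ev_cmp, ← ev_smul hf]
  congr 1
  funext b c
  rw [h]
  rfl

/-- points of the blocks -/
lemma exists_vcS {L : ℕ} {F : Type} [Field F] [Algebra K F] {v : Gr L β → Fin n → F}
    (hv : ∀ l, Gen.Pv (Bl A L l) (v l)) : ∃ (Q : Fin L → Bp A F) (P : Bp A F), vcS Q P = v := by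
  have h1 : ∀ p : Fin L × Fin β, ∃ Q : (A p.2).Pt F, Q.1 = v (Sum.inl p) := fun p =>
    hv (Sum.inl p)
  have h2 : ∀ b : Fin β, ∃ Q : (A b).Pt F, Q.1 = v (Sum.inr b) := fun b => hv (Sum.inr b)
  choose Q hQ using h1
  choose P hP using h2
  refine ⟨fun l b => Q (l, b), P, ?_⟩
  funext l
  rcases l with p | b
  · exact hQ p
  · exact hP b

lemma Pv_vcS {L : ℕ} {F : Type} [Field F] [Algebra K F] (Q : Fin L → Bp A F) (P : Bp A F)
    (l : Gr L β) : Gen.Pv (Bl A L l) (vcS Q P l) := by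
  rcases l with p | b
  · exact ⟨Q p.1 p.2, rfl⟩
  · exact ⟨P b, rfl⟩

end forms

section transfer

variable {K : Type} [Field K] {n β : ℕ} (A : Fin β → AbV K n)

/-- the combination of the forms `Fm i` with products of forms in the points `P + Q l` -/
noncomputable def Rc {L r : ℕ} (Fm : (Fin L → Fin r) → MvPolynomial (Gr L β × Fin n) K)
    (ad : Fin r → Fin r → MvPolynomial (Fin β × Fin n) K) (I : Fin L → Fin r)
    (c0 : Fin L → Fin β → Fin n) : MvPolynomial (Gr L β × Fin n) K :=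
  ∑ i, Fm i * ∏ l, cmp (ad (i l) (I l)) (Ca A l (c0 l))

/-- its degrees -/
def dR {L r : ℕ} (σ : Gr L β → ℕ) (η : Fin r → Fin β → ℕ) (I : Fin L → Fin r) : Gr L β → ℕ :=
  fun j => σ j + ∑ l, dC l (η (I l)) j

lemma MH_Rc {L r : ℕ} {Fm : (Fin L → Fin r) → MvPolynomial (Gr L β × Fin n) K}
    {ad : Fin r → Fin r → MvPolynomial (Fin β × Fin n) K} {I : Fin L → Fin r}
    {c0 : Fin L → Fin β → Fin n} {σ : Gr L β → ℕ} {η : Fin r → Fin β → ℕ}
    (hF : ∀ i, MH σ (Fm i)) (had : ∀ i k, MH (η k) (ad i k)) :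
    MH (dR σ η I) (Rc A Fm ad I c0) := by
  unfold Rc dR
  refine MH_sum _ _ _ (fun i _ => ?_)
  exact MH_mul (hF i) (MH_prod Finset.univ (fun l => dC l (η (I l))) _
    (fun l _ => MH_cmpCa A l (c0 l) (had (i l) (I l))))

/-- the value -/
noncomputable def tv {L r : ℕ} (Fm : (Fin L → Fin r) → MvPolynomial (Gr L β × Fin n) K)
    (ad : Fin r → Fin r → MvPolynomial (Fin β × Fin n) K) (I : Fin L → Fin r)
    {A : Fin β → AbV K n} {F : Type} [Field F] [Algebra K F] (Q : Fin L → Bp A F)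
    (P : Bp A F) : F :=
  ∑ i, ev (Fm i) (vcS Q P) * ∏ l, ev (ad (i l) (I l)) (vc (P + Q l))

lemma ev_Rc {L r : ℕ} {Fm : (Fin L → Fin r) → MvPolynomial (Gr L β × Fin n) K}
    {ad : Fin r → Fin r → MvPolynomial (Fin β × Fin n) K} {I : Fin L → Fin r}
    {η : Fin r → Fin β → ℕ} (had : ∀ i k, MH (η k) (ad i k))
    {F : Type} [Field F] [Algebra K F] (Q : Fin L → Bp A F) (P : Bp A F) :
    ∃ s : Fin L → Fin β → F, (∀ l b, s l b ≠ 0) ∧ ∀ c0 : Fin L → Fin β → Fin n,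
      ev (Rc A Fm ad I c0) (vcS Q P) =
        (∏ l, ∏ b, (s l b * ((P - Q l) b).1 (c0 l b)) ^ η (I l) b) * tv Fm ad I Q P := by
  choose s hs h using fun l : Fin L => ev_cmpCa A l Q P
  refine ⟨s, hs, fun c0 => ?_⟩
  have h1 : ev (Rc A Fm ad I c0) (vcS Q P) =
      ∑ i, ev (Fm i) (vcS Q P) * ∏ l, ev (cmp (ad (i l) (I l)) (Ca A l (c0 l))) (vcS Q P) := by
    unfold Rc ev
    simp only [map_sum, map_mul, map_prod]
  rw [h1]
  unfold tv
  rw [Finset.mul_sum]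
  refine Finset.sum_congr rfl (fun i _ => ?_)
  have h2 : ∏ l, ev (cmp (ad (i l) (I l)) (Ca A l (c0 l))) (vcS Q P) =
      (∏ l, ∏ b, (s l b * ((P - Q l) b).1 (c0 l b)) ^ η (I l) b) *
        ∏ l, ev (ad (i l) (I l)) (vc (P + Q l)) := by
    rw [← Finset.prod_mul_distrib]
    exact Finset.prod_congr rfl (fun l _ => h l (c0 l) _ _ (had _ _))
  rw [h2]
  ring

/-- If the form with the columns `cs` vanishes identically, the value vanishes everywhere. -/
lemma transfer {L r : ℕ} {Fm : (Fin L → Fin r) → MvPolynomial (Gr L β × Fin n) K}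
    {ad : Fin r → Fin r → MvPolynomial (Fin β × Fin n) K} {I : Fin L → Fin r}
    {σ : Gr L β → ℕ} {η : Fin r → Fin β → ℕ}
    (hF : ∀ i, MH σ (Fm i)) (had : ∀ i k, MH (η k) (ad i k))
    (cs : Fin β → Fin n) (hcs : ∀ b, ((0 : Bp A K) b).1 (cs b) ≠ 0)
    (hz : ∀ (F : Type) [Field F] [Algebra K F] (Q : Fin L → Bp A F) (P : Bp A F),
      ev (Rc A Fm ad I (fun _ => cs)) (vcS Q P) = 0)
    {F : Type} [Field F] [Algebra K F] (Q : Fin L → Bp A F) (P : Bp A F) :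
    tv Fm ad I Q P = 0 := by
  classical
  by_contra hne
  -- columns for the given point
  have h1 : ∀ (l : Fin L) (b : Fin β), ∃ c, ((P - Q l) b).1 c ≠ 0 := by
    intro l b
    obtain ⟨c, hc, -⟩ := ((P - Q l) b).2.1
    exact ⟨c, by rw [hc]; exact one_ne_zero⟩
  choose c0 hc0 using h1
  obtain ⟨s, hs, hval⟩ := ev_Rc A (Fm := Fm) (I := I) had Q P
  have hN1 : Gen.N (Bl A L) (Rc A Fm ad I c0) := by
    refine ⟨F, inferInstance, inferInstance, vcS Q P, Pv_vcS A Q P, ?_⟩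
    rw [hval]
    refine mul_ne_zero (Finset.prod_ne_zero_iff.2 fun l _ => Finset.prod_ne_zero_iff.2
      fun b _ => pow_ne_zero _ (mul_ne_zero (hs l b) (hc0 l b))) hne
  -- the forms for the columns `cs`
  let Θ : Fin L × Fin β → MvPolynomial (Gr L β × Fin n) K := fun p =>
    Ca A p.1 cs p.2 (cs p.2)
  have hΘ : ∀ p, ∃ τ, MH τ (Θ p) := fun p => ⟨_, MH_pull' (pr p.1 p.2) ((A p.2).Λ_hom _ _)⟩
  have hNΘ : ∀ p, Gen.N (Bl A L) (Θ p) := by
    intro p
    refine ⟨K, inferInstance, inferInstance, vcS (fun _ => (0 : Bp A K)) (0 : Bp A K),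
      Pv_vcS A _ _, ?_⟩
    obtain ⟨s', hs', h'⟩ := ev_Ca A p.1 (fun _ => (0 : Bp A K)) (0 : Bp A K)
    have h2 := h' cs p.2 (cs p.2)
    rw [sub_self, add_zero] at h2
    change ev (Ca A p.1 cs p.2 (cs p.2)) _ ≠ 0
    rw [h2]
    exact mul_ne_zero (mul_ne_zero (hs' _) (hcs _)) (hcs _)
  obtain ⟨⟨σ1, hσ1⟩, hN2⟩ := Gen.N_prod (Bl A L) (Bl_irr A L) (Bl_one A L) Finset.univ Θ
    (fun p _ => hΘ p) (fun p _ => hNΘ p)
  obtain ⟨F', iF, iA, v, hv, hne'⟩ := Gen.N_mul (Bl A L) (Bl_irr A L)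
    (MH_Rc A (I := I) (c0 := c0) hF had) hσ1 hN1 hN2
  obtain ⟨Q', P', rfl⟩ := exists_vcS A hv
  have h3 : ev (Rc A Fm ad I c0 * ∏ p, Θ p) (vcS Q' P') =
      ev (Rc A Fm ad I c0) (vcS Q' P') * ∏ p, ev (Θ p) (vcS Q' P') := by
    simp only [ev, map_mul, map_prod]
  rw [h3] at hne'
  have h4 := left_ne_zero_of_mul hne'
  have h5 := Finset.prod_ne_zero_iff.1 (right_ne_zero_of_mul hne')
  obtain ⟨s2, hs2, hval2⟩ := ev_Rc A (Fm := Fm) (I := I) had Q' P'
  rw [hval2] at h4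
  have h6 := right_ne_zero_of_mul h4
  have h7 : ∀ (l : Fin L) (b : Fin β), ((P' - Q' l) b).1 (cs b) ≠ 0 := by
    intro l b h8
    obtain ⟨s3, hs3, h9⟩ := ev_Ca A l Q' P'
    apply h5 (l, b) (Finset.mem_univ _)
    change ev (Ca A l cs b (cs b)) _ = 0
    rw [h9, h8, mul_zero, zero_mul]
  have h8 := hz F' Q' P'
  rw [hval2] at h8
  refine mul_ne_zero (Finset.prod_ne_zero_iff.2 fun l _ => Finset.prod_ne_zero_iff.2
      fun b _ => pow_ne_zero _ (mul_ne_zero (hs2 l b) (h7 l b))) h6 h8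

end transfer

end Pool.Agent.J4H27.MV
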