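import Pool.Agent.J4H27.MV.Frm

/-!
# Moving hyperplanes: determinants and local estimates
-/

set_option autoImplicit false
set_option linter.unusedSectionVars false

open MvPolynomial Pool.Agent.TH954.X Pool.Agent.TH954.V Pool.Agent.TH954.Z
  Pool.Agent.TH954.Y Pool.Agent.J4H27.AB

namespace Pool.Agent.J4H27.MV

section det

variable {K : Type} [Field K] {ι : Type} [Fintype ι] {n : ℕ}

lemma MH_det {r : ℕ} {M : Matrix (Fin r) (Fin r) (MvPolynomial (ι × Fin n) K)}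
    {δ : Fin r → ι → ℕ} (hM : ∀ k i, MH (δ k) (M k i)) : MH (fun b => ∑ k, δ k b) M.det := by
  classical
  rw [Matrix.det_apply]
  refine MH_sum _ _ _ (fun σ _ => ?_)
  have h1 := MH_prod Finset.univ (fun i : Fin r => δ (σ i)) (fun i => M (σ i) i)
    (fun i _ => hM (σ i) i)
  have h2 : (fun j => ∑ i : Fin r, δ (σ i) j) = fun b => ∑ k, δ k b := by
    funext j
    exact Equiv.sum_comp σ (fun k => δ k j)
  rw [h2] at h1
  rw [Units.smul_def, ← mem_mh]
  exact zsmul_mem (mem_mh.2 h1) _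

/-- the multidegree of the entries of the adjugate -/
def dA {r : ℕ} (δ : Fin r → ι → ℕ) (k : Fin r) (b : ι) : ℕ :=
  ∑ k', if k' = k then 0 else δ k' b

lemma dA_add {r : ℕ} (δ : Fin r → ι → ℕ) (k : Fin r) (b : ι) :
    dA δ k b + δ k b = ∑ k', δ k' b := by
  unfold dA
  have h1 : δ k b = ∑ k', if k' = k then δ k' b else 0 := by
    rw [Finset.sum_ite_eq' Finset.univ k (fun k' => δ k' b), if_pos (Finset.mem_univ k)]
  rw [h1, ← Finset.sum_add_distrib]
  refine Finset.sum_congr rfl (fun k' _ => ?_)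
  by_cases h : k' = k <;> simp [h]

lemma MH_adj {r : ℕ} {M : Matrix (Fin r) (Fin r) (MvPolynomial (ι × Fin n) K)}
    {δ : Fin r → ι → ℕ} (hM : ∀ k i, MH (δ k) (M k i)) (i k : Fin r) :
    MH (dA δ k) (M.adjugate i k) := by
  classical
  rw [Matrix.adjugate_apply]
  have h1 := MH_det (M := M.updateRow k (Pi.single i 1))
    (δ := fun k' b => if k' = k then 0 else δ k' b) (by
      intro k' i'
      by_cases h : k' = k
      · subst h
        simp only [if_true]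
        rw [Matrix.updateRow_self]
        by_cases hi : i' = i
        · subst hi
          rw [Pi.single_eq_same]
          exact MH_one
        · rw [Pi.single_eq_of_ne hi]
          intro m hm
          simp at hm
      · simp only [if_neg h]
        rw [Matrix.updateRow_ne h]
        exact hM k' i')
  exact h1

end det

/-- moving hyperplanes `∑ i, a j i (P) t i = 0` -/
structure Mvh (K : Type) [Field K] (n β r q : ℕ) where
  a : Fin q → Fin r → MvPolynomial (Fin β × Fin n) K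
  δ : Fin q → Fin β → ℕ
  hom : ∀ j i, MH (δ j) (a j i)

section alg

variable {K : Type} [Field K] {n β r q : ℕ} (D : Mvh K n β r q) {A : Fin β → AbV K n}

/-- the matrix of a system of `r` of the hyperplanes -/
noncomputable def Mvh.M (e : Fin r → Fin q) :
    Matrix (Fin r) (Fin r) (MvPolynomial (Fin β × Fin n) K) := fun k i => D.a (e k) i

/-- the determinant -/
noncomputable def Mvh.dt (e : Fin r → Fin q) : MvPolynomial (Fin β × Fin n) K := (D.M e).det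

/-- the multidegree of the determinant -/
def Mvh.dd (e : Fin r → Fin q) (b : Fin β) : ℕ := ∑ k, D.δ (e k) b

/-- the adjugate -/
noncomputable def Mvh.ad (e : Fin r → Fin q) (i k : Fin r) : MvPolynomial (Fin β × Fin n) K :=
  (D.M e).adjugate i k

lemma Mvh.dt_hom (e : Fin r → Fin q) : MH (D.dd e) (D.dt e) :=
  MH_det (fun k i => D.hom (e k) i)

lemma Mvh.ad_hom (e : Fin r → Fin q) (i k : Fin r) :
    MH (dA (fun k' => D.δ (e k')) k) (D.ad e i k) :=
  MH_adj (fun k i => D.hom (e k) i) i k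

/-- the value of the linear form -/
noncomputable def Mvh.lv (x : Bp A K × (Fin r → K)) (j : Fin q) : K :=
  ∑ i, ev (D.a j i) (vc x.1) * x.2 i

lemma Mvh.cramer (e : Fin r → Fin q) (x : Bp A K × (Fin r → K)) (i : Fin r) :
    ev (D.dt e) (vc x.1) * x.2 i =
      ∑ k, ev (D.ad e i k) (vc x.1) * D.lv x (e k) := by
  classical
  let φ : MvPolynomial (Fin β × Fin n) K →ₐ[K] K :=
    aeval (fun p : Fin β × Fin n => vc x.1 p.1 p.2)
  have h1 : ev (D.dt e) (vc x.1) = (φ.mapMatrix (D.M e)).det := by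
    rw [← AlgHom.map_det]
    rfl
  have h2 : ∀ i k, ev (D.ad e i k) (vc x.1) = (φ.mapMatrix (D.M e)).adjugate i k := by
    intro i k
    rw [← AlgHom.map_adjugate]
    rfl
  have h3 : ∀ k, D.lv x (e k) = ((φ.mapMatrix (D.M e)).mulVec x.2) k := by
    intro k
    rfl
  rw [h1]
  simp_rw [h2, h3]
  have h4 := Matrix.adjugate_mul (φ.mapMatrix (D.M e))
  have h5 := congrArg (fun N => (N.mulVec x.2) i) h4
  simp only [← Matrix.mulVec_mulVec, Matrix.smul_mulVec, Matrix.one_mulVec, Pi.smul_apply,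
    smul_eq_mul] at h5
  rw [← h5]
  rfl

/-- the fundamental identity -/
lemma Mvh.ident {L : ℕ} (e : Fin r → Fin q)
    (Fm : (Fin L → Fin r) → MvPolynomial (Gr L β × Fin n) K) (Q : Fin L → Bp A K) (P : Bp A K)
    (t : Fin L → Fin r → K) :
    (∏ l, ev (D.dt e) (vc (P + Q l))) * ∑ i, ev (Fm i) (vcS Q P) * ∏ l, t l (i l) =
      ∑ I : Fin L → Fin r, tv Fm (D.ad e) I Q P * ∏ l, D.lv (P + Q l, t l) (e (I l)) := by
  classical
  have h1 : ∀ i : Fin L → Fin r, (∏ l, ev (D.dt e) (vc (P + Q l))) * ∏ l, t l (i l) =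
      ∑ I : Fin L → Fin r, (∏ l, ev (D.ad e (i l) (I l)) (vc (P + Q l))) *
        ∏ l, D.lv (P + Q l, t l) (e (I l)) := by
    intro i
    rw [← Finset.prod_mul_distrib]
    have h2 : ∀ l, ev (D.dt e) (vc (P + Q l)) * t l (i l) =
        ∑ k, ev (D.ad e (i l) k) (vc (P + Q l)) * D.lv (P + Q l, t l) (e k) := fun l =>
      D.cramer e (P + Q l, t l) (i l)
    simp_rw [h2]
    rw [Finset.prod_univ_sum, Fintype.piFinset_univ]
    refine Finset.sum_congr rfl (fun I _ => ?_)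
    rw [Finset.prod_mul_distrib]
  rw [Finset.mul_sum]
  have h3 : ∀ i : Fin L → Fin r, (∏ l, ev (D.dt e) (vc (P + Q l))) *
      (ev (Fm i) (vcS Q P) * ∏ l, t l (i l)) =
      ∑ I : Fin L → Fin r, ev (Fm i) (vcS Q P) *
        (∏ l, ev (D.ad e (i l) (I l)) (vc (P + Q l))) *
        ∏ l, D.lv (P + Q l, t l) (e (I l)) := by
    intro i
    have h4 : (∏ l, ev (D.dt e) (vc (P + Q l))) * (ev (Fm i) (vcS Q P) * ∏ l, t l (i l)) =
        ev (Fm i) (vcS Q P) * ((∏ l, ev (D.dt e) (vc (P + Q l))) * ∏ l, t l (i l)) := by ring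
    rw [h4, h1, Finset.mul_sum]
    refine Finset.sum_congr rfl (fun I _ => ?_)
    ring
  simp_rw [h3]
  rw [Finset.sum_comm]
  refine Finset.sum_congr rfl (fun I _ => ?_)
  unfold tv
  rw [Finset.sum_mul]

end alg

section loc

variable {K : Type} [Field K] {n β r q : ℕ}

lemma le_of_nvW {ι : Type} [Fintype ι] {w : AbsoluteValue K ℝ} {σ : ι → ℕ}
    {f : MvPolynomial (ι × Fin n) K} {u : ι → Fin n → K} (hu : ∀ j, u j ≠ 0) {κ : ℝ}
    (h : nvW w σ f u ≤ κ) : w (ev f u) ≤ κ * ∏ j, (⨆ c, w (u j c)) ^ σ j := by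
  unfold nvW at h
  rwa [div_le_iff₀ (Finset.prod_pos (fun l _ => pow_pos (sup_posW w (hu l)) _))] at h

lemma vcn {A : Fin β → AbV K n} (P : Bp A K) (b : Fin β) : vc P b ≠ 0 := (P b).2.1.ne_zero

/-- bound for the values of the combinations of the auxiliary forms -/
lemma tv_le (A : Fin β → AbV K n) {L : ℕ}
    (Fm : (Fin L → Fin r) → MvPolynomial (Gr L β × Fin n) K) (σ : Gr L β → ℕ)
    (hF : ∀ i, MH σ (Fm i)) (ad : Fin r → Fin r → MvPolynomial (Fin β × Fin n) K)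
    (η : Fin r → Fin β → ℕ) (had : ∀ i k, MH (η k) (ad i k)) (w : AbsoluteValue K ℝ) :
    ∃ C : ℝ, 1 ≤ C ∧ ∀ (I : Fin L → Fin r) (Q : Fin L → Bp A K) (P : Bp A K),
      w (tv Fm ad I Q P) ≤ C * ((∏ j, (⨆ c, w (vcS Q P j c)) ^ σ j) *
        ∏ l, ∏ b, (⨆ c, w (vc (P + Q l) b c)) ^ η (I l) b) := by
  classical
  choose A1 M1 hM1 hA1 using fun i => nvW_le_kap (Fm i) σ (hF i)
  choose A2 M2 hM2 hA2 using fun p : Fin r × Fin r => nvW_le_kap (ad p.1 p.2) (η p.2) (had p.1 p.2)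
  set c2 : ℝ := 1 + ∑ p : Fin r × Fin r, kap (A2 p) (M2 p) 1 w with hc2
  have hk2 : ∀ p : Fin r × Fin r, 0 ≤ kap (A2 p) (M2 p) 1 w := fun p =>
    (zero_lt_one.trans_le (one_le_kap _ (hM2 p) _ _)).le
  have hk1 : ∀ i, 0 ≤ kap (A1 i) (M1 i) 1 w := fun i =>
    (zero_lt_one.trans_le (one_le_kap _ (hM1 i) _ _)).le
  have hc21 : 1 ≤ c2 := by
    have := Finset.sum_nonneg (fun p (_ : p ∈ Finset.univ) => hk2 p)
    rw [hc2]
    linarith
  have hc2le : ∀ p : Fin r × Fin r, kap (A2 p) (M2 p) 1 w ≤ c2 := by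
    intro p
    have := Finset.single_le_sum (f := fun p : Fin r × Fin r => kap (A2 p) (M2 p) 1 w)
      (fun p _ => hk2 p) (Finset.mem_univ p)
    rw [hc2]
    linarith
  have hc20 : 0 ≤ c2 := zero_le_one.trans hc21
  refine ⟨1 + (∑ i, kap (A1 i) (M1 i) 1 w) * c2 ^ L, ?_, fun I Q P => ?_⟩
  · have := mul_nonneg (Finset.sum_nonneg (fun i (_ : i ∈ Finset.univ) => hk1 i))
      (pow_nonneg hc20 L)
    linarith
  have hu : ∀ j, vcS Q P j ≠ 0 := fun j => vcS_ne A Q P j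
  set N1 : ℝ := ∏ j, (⨆ c, w (vcS Q P j c)) ^ σ j with hN1
  have hN10 : 0 ≤ N1 := Finset.prod_nonneg (fun j _ => pow_nonneg (sup_posW w (hu j)).le _)
  set N2 : ℝ := ∏ l, ∏ b, (⨆ c, w (vc (P + Q l) b c)) ^ η (I l) b with hN2
  have hv : ∀ l b, vc (P + Q l) b ≠ 0 := fun l b => vcn _ b
  have hN2l : ∀ l, 0 ≤ ∏ b, (⨆ c, w (vc (P + Q l) b c)) ^ η (I l) b := fun l =>
    Finset.prod_nonneg (fun b _ => pow_nonneg (sup_posW w (hv l b)).le _)
  have hN20 : 0 ≤ N2 := Finset.prod_nonneg (fun l _ => hN2l l)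
  unfold tv
  refine (IsAbsoluteValue.abv_sum w _ _).trans ?_
  have h1 : ∀ i : Fin L → Fin r, w (ev (Fm i) (vcS Q P) *
      ∏ l, ev (ad (i l) (I l)) (vc (P + Q l))) ≤ kap (A1 i) (M1 i) 1 w * c2 ^ L * (N1 * N2) := by
    intro i
    rw [map_mul, map_prod]
    have h2 : w (ev (Fm i) (vcS Q P)) ≤ kap (A1 i) (M1 i) 1 w * N1 :=
      le_of_nvW hu (hA1 i w _ hu)
    have h3 : ∏ l, w (ev (ad (i l) (I l)) (vc (P + Q l))) ≤ c2 ^ L * N2 := by
      have h4 : c2 ^ L * N2 = ∏ l : Fin L, (c2 * ∏ b, (⨆ c, w (vc (P + Q l) b c)) ^ η (I l) b) := by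
        rw [Finset.prod_mul_distrib, Finset.prod_const, Finset.card_univ, Fintype.card_fin]
      rw [h4]
      refine Finset.prod_le_prod (fun l _ => apply_nonneg w _) (fun l _ => ?_)
      refine (le_of_nvW (hv l) (hA2 (i l, I l) w _ (hv l))).trans ?_
      exact mul_le_mul_of_nonneg_right (hc2le _) (hN2l l)
    calc w (ev (Fm i) (vcS Q P)) * ∏ l, w (ev (ad (i l) (I l)) (vc (P + Q l)))
        ≤ (kap (A1 i) (M1 i) 1 w * N1) * (c2 ^ L * N2) :=
          mul_le_mul h2 h3 (Finset.prod_nonneg (fun l _ => apply_nonneg w _))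
            (mul_nonneg (hk1 i) hN10)
      _ = _ := by ring
  refine (Finset.sum_le_sum (fun i _ => h1 i)).trans ?_
  rw [← Finset.sum_mul, ← Finset.sum_mul]
  refine mul_le_mul_of_nonneg_right ?_ (mul_nonneg hN10 hN20)
  linarith

variable (D : Mvh K n β r q) {A : Fin β → AbV K n}

/-- the local height with respect to the moving hyperplane `j` -/
noncomputable def Mvh.lam (w : AbsoluteValue K ℝ) (x : Bp A K × (Fin r → K)) (j : Fin q) : ℝ :=
  -Real.log (w (D.lv x j) / ((⨆ c, w (x.2 c)) * ∏ b, (⨆ c, w (vc x.1 b c)) ^ D.δ j b))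

lemma sup_posR (w : AbsoluteValue K ℝ) {t : Fin r → K} (ht : t ≠ 0) : 0 < ⨆ c, w (t c) := by
  obtain ⟨c, hc⟩ := Function.ne_iff.mp ht
  exact (w.pos hc).trans_le (le_ciSup (f := fun c => w (t c)) (Set.finite_range _).bddAbove c)

lemma Mvh.den_pos (w : AbsoluteValue K ℝ) {x : Bp A K × (Fin r → K)} (hx : x.2 ≠ 0)
    (j : Fin q) : 0 < (⨆ c, w (x.2 c)) * ∏ b, (⨆ c, w (vc x.1 b c)) ^ D.δ j b :=
  mul_pos (sup_posR w hx) (Finset.prod_pos (fun b _ => pow_pos (sup_posW w (vcn _ b)) _))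

lemma Mvh.le_of_lam (w : AbsoluteValue K ℝ) {x : Bp A K × (Fin r → K)} (hx : x.2 ≠ 0)
    {j : Fin q} (hj : D.lv x j ≠ 0) {μ : ℝ} (h : μ ≤ D.lam w x j) :
    w (D.lv x j) ≤ Real.exp (-μ) *
      ((⨆ c, w (x.2 c)) * ∏ b, (⨆ c, w (vc x.1 b c)) ^ D.δ j b) := by
  have h1 := D.den_pos w hx j
  rw [← div_le_iff₀ h1]
  unfold Mvh.lam at h
  have h2 : 0 < w (D.lv x j) / ((⨆ c, w (x.2 c)) * ∏ b, (⨆ c, w (vc x.1 b c)) ^ D.δ j b) :=
    div_pos (w.pos hj) h1
  rw [← Real.exp_log h2]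
  exact Real.exp_le_exp.2 (by linarith)

/-- **The local estimate.** -/
lemma Mvh.loc (A : Fin β → AbV K n) {L : ℕ} (e : Fin r → Fin q)
    (Fm : (Fin L → Fin r) → MvPolynomial (Gr L β × Fin n) K) (σ : Gr L β → ℕ)
    (hF : ∀ i, MH σ (Fm i)) (w : AbsoluteValue K ℝ) :
    ∃ C : ℝ, 0 ≤ C ∧ ∀ (Q : Fin L → Bp A K) (P : Bp A K) (t : Fin L → Fin r → K)
      (μ : Fin r → ℝ) (m0 : ℝ), (∀ l, t l ≠ 0) →
      (∀ I : Fin L → Fin r, tv Fm (D.ad e) I Q P ≠ 0 → m0 ≤ ∑ l, μ (I l)) →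
      (∀ l k, D.lv (P + Q l, t l) (e k) ≠ 0 ∧ μ k ≤ D.lam w (P + Q l, t l) (e k)) →
      (∀ l, ev (D.dt e) (vc (P + Q l)) ≠ 0) →
      (∑ i, ev (Fm i) (vcS Q P) * ∏ l, t l (i l) ≠ 0) →
      Real.log (w (∑ i, ev (Fm i) (vcS Q P) * ∏ l, t l (i l))) +
        ∑ l, Real.log (nvW w (D.dd e) (D.dt e) (vc (P + Q l))) ≤
      C - m0 + ∑ j, (σ j : ℝ) * Real.log (⨆ c, w (vcS Q P j c)) +
        ∑ l, Real.log (⨆ c, w (t l c)) := by
  classical
  obtain ⟨C, hC1, hC⟩ := tv_le A Fm σ hF (D.ad e) _ (D.ad_hom e) w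
  have hC0 : 0 ≤ C := zero_le_one.trans hC1
  set R : ℝ := ((Finset.univ : Finset (Fin L → Fin r)).card : ℝ) * C + 1 with hR
  have hR1 : 1 ≤ R := by
    have : 0 ≤ ((Finset.univ : Finset (Fin L → Fin r)).card : ℝ) * C := by positivity
    linarith
  refine ⟨Real.log R, Real.log_nonneg hR1, fun Q P t μ m0 ht hI hlam hdt hne => ?_⟩
  set y := ∑ i, ev (Fm i) (vcS Q P) * ∏ l, t l (i l) with hy
  have hid := D.ident e Fm Q P t
  rw [← hy] at hid
  set N1 : ℝ := ∏ j, (⨆ c, w (vcS Q P j c)) ^ σ j with hN1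
  have hN10 : 0 < N1 := Finset.prod_pos (fun j _ => pow_pos (sup_posW w (vcS_ne A Q P j)) _)
  have hv : ∀ l b, 0 < ⨆ c, w (vc (P + Q l) b c) := fun l b => sup_posW w (vcn _ b)
  set N3 : ℝ := ∏ l, ∏ b, (⨆ c, w (vc (P + Q l) b c)) ^ D.dd e b with hN3
  have hN30 : 0 < N3 := Finset.prod_pos (fun l _ => Finset.prod_pos
    (fun b _ => pow_pos (hv l b) _))
  set N4 : ℝ := ∏ l, ⨆ c, w (t l c) with hN4
  have hN40 : 0 < N4 := Finset.prod_pos (fun l _ => sup_posR w (ht l))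
  have hterm : ∀ I : Fin L → Fin r, w (tv Fm (D.ad e) I Q P *
      ∏ l, D.lv (P + Q l, t l) (e (I l))) ≤ C * (Real.exp (-m0) * (N1 * N3 * N4)) := by
    intro I
    by_cases h0 : tv Fm (D.ad e) I Q P = 0
    · rw [h0, zero_mul, map_zero]
      positivity
    have h1 := hC I Q P
    have h2 : ∏ l, w (D.lv (P + Q l, t l) (e (I l))) ≤ ∏ l, (Real.exp (-μ (I l)) *
        ((⨆ c, w (t l c)) * ∏ b, (⨆ c, w (vc (P + Q l) b c)) ^ D.δ (e (I l)) b)) := by
      refine Finset.prod_le_prod (fun l _ => apply_nonneg w _) (fun l _ => ?_)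
      exact D.le_of_lam w (x := (P + Q l, t l)) (ht l) (hlam l (I l)).1 (hlam l (I l)).2
    have h3 : ∏ l, (Real.exp (-μ (I l)) *
        ((⨆ c, w (t l c)) * ∏ b, (⨆ c, w (vc (P + Q l) b c)) ^ D.δ (e (I l)) b)) =
        Real.exp (-∑ l, μ (I l)) * (N4 *
          ∏ l, ∏ b, (⨆ c, w (vc (P + Q l) b c)) ^ D.δ (e (I l)) b) := by
      rw [Finset.prod_mul_distrib, Finset.prod_mul_distrib, ← Real.exp_sum,
        Finset.sum_neg_distrib]
    have h4 : (∏ l, ∏ b, (⨆ c, w (vc (P + Q l) b c)) ^ dA (fun k' => D.δ (e k')) (I l) b) *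
        (∏ l, ∏ b, (⨆ c, w (vc (P + Q l) b c)) ^ D.δ (e (I l)) b) = N3 := by
      rw [← Finset.prod_mul_distrib]
      refine Finset.prod_congr rfl (fun l _ => ?_)
      rw [← Finset.prod_mul_distrib]
      refine Finset.prod_congr rfl (fun b _ => ?_)
      rw [← pow_add, dA_add]
      rfl
    rw [map_mul, map_prod]
    have h5 : Real.exp (-∑ l, μ (I l)) ≤ Real.exp (-m0) :=
      Real.exp_le_exp.2 (neg_le_neg (hI I h0))
    have h6 : 0 ≤ (∏ l, ∏ b, (⨆ c, w (vc (P + Q l) b c)) ^ dA (fun k' => D.δ (e k')) (I l) b) :=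
      Finset.prod_nonneg (fun l _ => Finset.prod_nonneg (fun b _ => pow_nonneg (hv l b).le _))
    calc w (tv Fm (D.ad e) I Q P) * ∏ l, w (D.lv (P + Q l, t l) (e (I l)))
        ≤ (C * (N1 * ∏ l, ∏ b, (⨆ c, w (vc (P + Q l) b c)) ^ dA (fun k' => D.δ (e k')) (I l) b)) *
          (Real.exp (-∑ l, μ (I l)) * (N4 *
          ∏ l, ∏ b, (⨆ c, w (vc (P + Q l) b c)) ^ D.δ (e (I l)) b)) := by
          rw [← h3]
          exact mul_le_mul h1 h2 (Finset.prod_nonneg (fun l _ => apply_nonneg w _))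
            (mul_nonneg hC0 (mul_nonneg hN10.le h6))
      _ = C * (Real.exp (-∑ l, μ (I l)) * (N1 * N3 * N4)) := by
          rw [← h4]
          ring
      _ ≤ _ := by
          refine mul_le_mul_of_nonneg_left ?_ hC0
          exact mul_le_mul_of_nonneg_right h5 (by positivity)
  have hsum : w ((∏ l, ev (D.dt e) (vc (P + Q l))) * y) ≤
      R * (Real.exp (-m0) * (N1 * N3 * N4)) := by
    rw [hid]
    refine (IsAbsoluteValue.abv_sum w _ _).trans ?_
    refine (Finset.sum_le_sum (fun I _ => hterm I)).trans ?_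
    rw [Finset.sum_const, nsmul_eq_mul, ← mul_assoc]
    refine mul_le_mul_of_nonneg_right ?_ (by positivity)
    rw [hR]
    linarith
  rw [map_mul, map_prod] at hsum
  have hdt0 : ∀ l, 0 < w (ev (D.dt e) (vc (P + Q l))) := fun l => w.pos (hdt l)
  have hy0 : 0 < w y := w.pos hne
  have hlog := Real.log_le_log (mul_pos (Finset.prod_pos (fun l _ => hdt0 l)) hy0) hsum
  rw [Real.log_mul (Finset.prod_pos (fun l _ => hdt0 l)).ne' hy0.ne',
    Real.log_prod (fun l _ => (hdt0 l).ne'),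
    Real.log_mul (by linarith) (by positivity), Real.log_mul (Real.exp_pos _).ne' (by positivity),
    Real.log_exp, Real.log_mul (by positivity) hN40.ne', Real.log_mul hN10.ne' hN30.ne'] at hlog
  have e1 : Real.log N1 = ∑ j, (σ j : ℝ) * Real.log (⨆ c, w (vcS Q P j c)) := by
    rw [hN1, Real.log_prod (fun j _ => (pow_pos (sup_posW w (vcS_ne A Q P j)) _).ne')]
    simp_rw [Real.log_pow]
  have e4 : Real.log N4 = ∑ l, Real.log (⨆ c, w (t l c)) := by
    rw [hN4, Real.log_prod (fun l _ => (sup_posR w (ht l)).ne')]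
  have e3 : ∑ l, Real.log (nvW w (D.dd e) (D.dt e) (vc (P + Q l))) =
      ∑ l, Real.log (w (ev (D.dt e) (vc (P + Q l)))) - Real.log N3 := by
    rw [hN3, Real.log_prod (fun l _ => (Finset.prod_pos (fun b _ => pow_pos (hv l b) _)).ne'),
      ← Finset.sum_sub_distrib]
    refine Finset.sum_congr rfl (fun l _ => ?_)
    unfold nvW
    rw [Real.log_div (hdt0 l).ne' (Finset.prod_pos (fun b _ => pow_pos (hv l b) _)).ne']
  rw [e3, ← e1, ← e4]
  linarith

end loc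

end Pool.Agent.J4H27.MV
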